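import Pool.Agent.Lib.MP_563af5_gt.ArTop

namespace Pool.Agent.Lib.MP_563af5_gt

open Set Filter Topology Pool.Agent.Lib.MP_fecf72_lc

variable {Ω : Type} [LinearOrder Ω] [Om Ω] {X R : Type} [TopologicalSpace X] [TopologicalSpace R]
  (g : Ω → C(X, R)) (z : Ω → X) (B : Ω → Set (Set X))

/-- A pair of sections of the nodes at level `δ`. -/
def Bas (δ : Ω) (w : Ω → X × X) : Prop :=
  (∀ γ, (w γ).1 ∈ Fib g (z γ) δ ∧ (w γ).2 ∈ Fib g (z γ) δ) ∧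
    ∀ γ γ', Fib g (z γ) δ = Fib g (z γ') δ → w γ = w γ'

/-- The swap law at a finite set. -/
def SwapAt (L : Set X → Set X → Prop) (δ : Ω) (w : Ω → X × X) (s : Set Ω) : Prop :=
  ∀ O, IsOpen O → (∀ γ ∈ s, (w γ).1 ∈ O ∧ (w γ).2 ∈ O) →
    (∀ β < δ, ∀ U ∈ B β, ∀ V ∈ B β, z '' s ⊆ U → V ⊆ O → L U V) →
      ∃ β < δ, ∃ U ∈ B β, ∃ V ∈ B β, U ⊆ O ∧ z '' s ⊆ V ∧ L U V

/-- The swap law. -/
def Swap (L : Set X → Set X → Prop) (δ : Ω) (w : Ω → X × X) : Prop :=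
  ∀ s : Set Ω, s.Finite → SwapAt z B L δ w s

/-- Sequences with attached sets. -/
abbrev T2 (Ω X : Type) : Type := (Ω × (ℕ → Ω)) × (ℕ → Set X)

/-- Members whose attached sets contain given sets. -/
def A1 (Z : Set (T2 Ω X)) (n : ℕ) (V : ℕ → Set X) : Set (Ω × (ℕ → Ω)) :=
  {a | ∃ O, (a, O) ∈ Z ∧ ∀ i < n, V i ⊆ O i}

/-- Targets. -/
def Tg (δ : Ω) (e : ℕ → Ω) (Z : Set (T2 Ω X)) (n : ℕ) : Set (ℕ → X) :=
  {x | ∀ O : ℕ → Set X, (∀ i < n, IsOpen (O i) ∧ x i ∈ O i) → ∃ β < δ, ∃ a ∈ Z, β < a.1.1 ∧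
    ∀ i < n, Fib g (z (a.1.2 i)) β ⊆ O i ∧ ∃ V ∈ B β, z (e i) ∈ V ∧ V ⊆ a.2 i}

variable {g z B}

omit [Om Ω] in
theorem Tg_closed (δ : Ω) (e : ℕ → Ω) (Z : Set (T2 Ω X)) (n : ℕ) :
    IsClosed (Tg g z B δ e Z n) := by
  refine isClosed_of_closure_subset fun x hx O hO => ?_
  obtain ⟨y, h1, h2⟩ := mem_closure_iff.1 hx _
    (isOpen_set_pi (finite_Iio n) fun i hi => (hO i hi).1) fun i hi => (hO i hi).2
  exact h2 O fun i hi => ⟨(hO i hi).1, h1 i hi⟩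

omit [Om Ω] in
theorem Tg_mono {δ : Ω} {e : ℕ → Ω} {Z Z' : Set (T2 Ω X)} {n n' : ℕ} (h : Z ⊆ Z') (k : n' ≤ n) :
    Tg g z B δ e Z n ⊆ Tg g z B δ e Z' n' := by
  intro x hx O hO
  obtain ⟨β, h1, a, h2, h3, h4⟩ := hx (fun i => {y | i < n' → y ∈ O i}) fun i _ => by
    by_cases hi : i < n'
    · simpa [hi] using hO i hi
    · simp [hi]
  exact ⟨β, h1, a, h h2, h3, fun i hi =>
    ⟨fun y hy => (h4 i (hi.trans_le k)).1 hy hi, (h4 i (hi.trans_le k)).2⟩⟩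

omit [Om Ω] in
theorem Tg_sel [CompactSpace X] {δ : Ω} {e : ℕ → Ω} (Gd : Set (T2 Ω X) → Prop) (h0 : Gd univ)
    (h1 : ∀ Z Z', Gd Z → Gd Z' → Gd (Z ∩ Z')) (h2 : ∀ Z n, Gd Z → (Tg g z B δ e Z n).Nonempty) :
    ∃ x, ∀ Z n, Gd Z → x ∈ Tg g z B δ e Z n := by
  have : Nonempty {Z // Gd Z} := ⟨⟨_, h0⟩⟩
  obtain ⟨x, hx⟩ := IsCompact.nonempty_iInter_of_directed_nonempty_isCompact_isClosed
    (fun p : {Z // Gd Z} × ℕ => Tg g z B δ e p.1.1 p.2)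
    (fun p q => ⟨(⟨_, h1 _ _ p.1.2 q.1.2⟩, max p.2 q.2),
      Tg_mono inter_subset_left (le_max_left _ _), Tg_mono inter_subset_right (le_max_right _ _)⟩)
    (fun p => h2 _ _ p.1.2) (fun _ => (Tg_closed _ _ _ _).isCompact) fun _ => Tg_closed _ _ _ _
  exact ⟨x, fun Z n h => mem_iInter.1 hx (⟨Z, h⟩, n)⟩

omit [Om Ω] [LinearOrder Ω] [TopologicalSpace X] in
theorem A1_ctbl (Z : Set (T2 Ω X)) {T : Set (Set X)} (h : T.Countable) :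
    {A | ∃ n V, (∀ i < n, V i ∈ T) ∧ A = A1 Z n V}.Countable := by
  refine (countable_iUnion fun n : ℕ => (countable_pi fun _ : Fin n => h).image
    fun (V : Fin n → Set X) => {a | ∃ O, (a, O) ∈ Z ∧ ∀ i : Fin n, V i ⊆ O i}).mono ?_
  rintro _ ⟨n, V, k, rfl⟩
  refine mem_iUnion.2 ⟨n, fun i => V i, fun i => k i i.2, ?_⟩
  ext a
  simp only [A1, mem_ofPred_eq, Fin.forall_iff]

omit [LinearOrder Ω] [Om Ω] in
theorem open_wit {s : Set Ω} (hs : s.Finite) {O : Set X} (hO : IsOpen O) :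
    IsOpen {w : Ω → X × X | ∀ γ ∈ s, (w γ).1 ∈ O ∧ (w γ).2 ∈ O} :=
  isOpen_set_pi hs fun _ _ => hO.prod hO

variable [T2Space R] [CompactSpace X] [T2Space X]

theorem club_seq (hr : ∀ x : X, ∃ ρ, Fib g x ρ ⊆ {x}) (hB : Tubes g B) :
    ∀ᶠ N in Club, ∀ δ : Ω, (∀ ξ : Ω, In N ξ ↔ ξ < δ) → ∀ e : ℕ → Ω, ∃ x1 x2 : ℕ → X,
      (∀ i, x1 i ∈ Fib g (z (e i)) δ ∧ x2 i ∈ Fib g (z (e i)) δ) ∧
      ∀ L : Set X → Set X → Prop, In N L → ∀ σ : Set ℕ, σ.Finite → ∀ O, IsOpen O →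
        (∀ i ∈ σ, x1 i ∈ O ∧ x2 i ∈ O) →
        (∀ β < δ, ∀ U ∈ B β, ∀ V ∈ B β, z '' (e '' σ) ⊆ U → V ⊆ O → L U V) →
          ∃ β < δ, ∃ U ∈ B β, ∃ V ∈ B β, U ⊆ O ∧ z '' (e '' σ) ⊆ V ∧ L U V := by
  classical
  filter_upwards [sk1 fun A ρ => ∃ x, LimP g z A x ρ,
    sk1 fun (A : Set (Ω × (ℕ → Ω))) ξ => ∀ a ∈ A, a.1 ≤ ξ,
    clo_sub (fun p : Set (T2 Ω X) × Ω => {A | ∃ n V, (∀ i < n, V i ∈ B p.2) ∧ A = A1 p.1 n V})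
      fun p => A1_ctbl p.1 (hB.ct p.2), clo_pair (Set (T2 Ω X)) Ω,
    clo0 (univ : Set (T2 Ω X)), clo2 fun Z Z' : Set (T2 Ω X) => Z ∩ Z',
    clo1n fun (Z : Set (T2 Ω X)) n => {a : T2 Ω X | ∀ β < a.1.1, ∀ V : ℕ → Set X,
      (∀ i < n, V i ∈ B β ∧ z (a.1.2 i) ∈ V i) → ¬ Unb (A1 Z n V)},
    sk1 fun ξ β : Ω => ξ < β, clo_sub B hB.ct,
    clo1n fun (K : Set X) i => {a : T2 Ω X | z (a.1.2 i) ∈ K}, club_fin ℕ, clo_ctbl ℕ,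
    clo2 fun (L : Set X → Set X → Prop) (σ : Set ℕ) => {a : T2 Ω X | ∃ O', (∀ β < a.1.1,
      ∀ U ∈ B β, ∀ V ∈ B β, z '' (a.1.2 '' σ) ⊆ U → V ⊆ O' → L U V) ∧ ∀ i ∈ σ, a.2 i ⊆ O'},
    clo0 (Classical.arbitrary Ω)]
    with N c1 c2 c3 c4 c5 c6 c7 c8 c9 c10 c11 c12 c13 c14 δ hδ e
  have inA : ∀ (Z : Set (T2 Ω X)) n β V, In N Z → β < δ → (∀ i < n, V i ∈ B β) →
      In N (A1 Z n V) := fun Z n β V h1 h2 h3 =>
    c3 (Z, β) ((c4 _ _).2 ⟨h1, (hδ β).2 h2⟩) _ ⟨n, V, h3, rfl⟩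
  have unb : ∀ A : Set (Ω × (ℕ → Ω)), In N A → (δ, e) ∈ A → Unb A := by
    intro A h1 h2
    by_contra h
    simp only [Unb, not_forall, not_exists, not_and, not_lt] at h
    obtain ⟨ξ, h3, h4⟩ := c2 A h1 h
    exact absurd ((hδ ξ).1 h3) (not_lt.2 (h4 _ h2))
  have ne : ∀ (Z : Set (T2 Ω X)) n β V, In N Z → β < δ → (∀ i < n, V i ∈ B β ∧ z (e i) ∈ V i) →
      Unb (A1 Z n V) → (Tg g z B δ e Z n).Nonempty := by
    intro Z n β V h1 h2 h0 h3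
    obtain ⟨ρ, h4, x, h5⟩ := c1 _ (inA Z n β V h1 h2 fun i hi => (h0 i hi).1) (exists_limP hr z h3)
    refine ⟨x, fun O hO => ?_⟩
    obtain ⟨a, ⟨O', h6, h7⟩, h8, h9⟩ := h5 n O hO (max β ρ)
    exact ⟨max β ρ, max_lt h2 ((hδ ρ).1 h4), (a, O'), h6, h8, fun i hi =>
      ⟨(Fib.anti _ (le_max_right _ _)).trans (h9 i hi), V i,
        hB.mono (le_max_left _ _) (h0 i hi).1, (h0 i hi).2, h7 i hi⟩⟩
  have mid : ∀ β x O, IsOpen O → Fib g x β ⊆ O → ∃ U ∈ B β, x ∈ U ∧ U ⊆ O := fun β x O h1 h2 =>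
    let ⟨U, a1, a2, a3⟩ := hB.mid β {x} O (finite_singleton x) h1 (forall_eq.2 h2)
    ⟨U, a1, a2 rfl, a3⟩
  obtain ⟨β0, hβ0⟩ : ∃ β, β < δ := ⟨_, (hδ _).1 c14⟩
  choose V0 v1 v2 _ using fun i => mid β0 (z (e i)) univ isOpen_univ (subset_univ _)
  obtain ⟨x1, h1⟩ := Tg_sel (g := g) (z := z) (B := B) (δ := δ) (e := e)
    (fun Z => In N Z ∧ ((δ, e), fun _ => univ) ∈ Z) ⟨c5, trivial⟩
    (fun Z Z' h k => ⟨c6 _ _ h.1 k.1, h.2, k.2⟩) fun Z n h =>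
      ne Z n β0 V0 h.1 hβ0 (fun i _ => ⟨v1 i, v2 i⟩)
        (unb _ (inA _ _ _ _ h.1 hβ0 fun i _ => v1 i) ⟨_, h.2, fun _ _ => subset_univ _⟩)
  obtain ⟨x2, h2⟩ := Tg_sel (g := g) (z := z) (B := B) (δ := δ) (e := e)
    (fun Z => In N Z ∧ (∀ a O O', (a, O) ∈ Z → O' ≤ O → (a, O') ∈ Z) ∧
      ∃ O : ℕ → Set X, (∀ i, IsOpen (O i) ∧ x1 i ∈ O i) ∧ ((δ, e), O) ∈ Z)
    ⟨c5, fun _ _ _ _ _ => trivial, fun _ => univ, fun _ => ⟨isOpen_univ, trivial⟩, trivial⟩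
    (fun Z Z' ⟨a1, a2, O, a3, a4⟩ ⟨b1, b2, O', b3, b4⟩ => ⟨c6 _ _ a1 b1,
      fun a U U' h k => ⟨a2 a U U' h.1 k, b2 a U U' h.2 k⟩, O ⊓ O',
      fun i => ⟨(a3 i).1.inter (b3 i).1, (a3 i).2, (b3 i).2⟩,
      a2 _ _ _ a4 inf_le_left, b2 _ _ _ b4 inf_le_right⟩) (by
      rintro Z n ⟨a1, -, O, a3, a4⟩
      by_contra hn
      obtain ⟨β, b1, a, b2, b3, b4⟩ := h1 _ n
        ⟨c7 Z a1 n, fun β hβ V k0 k => hn (ne Z n β V a1 hβ k0 k)⟩ O fun i _ => a3 i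
      choose! V d1 d2 d3 using fun i hi => mid β _ _ (a3 i).1 (b4 i hi).1
      exact b2 β b3 V (fun i hi => ⟨d1 i hi, d2 i hi⟩) (unb _ (inA _ _ _ _ a1 b1 d1) ⟨O, a4, d3⟩))
  have fib : ∀ (x : ℕ → X) (i : ℕ), (∀ K : Set X, In N K → z (e i) ∈ K →
      x ∈ Tg g z B δ e {a : T2 Ω X | z (a.1.2 i) ∈ K} (i + 1)) → x i ∈ Fib g (z (e i)) δ := by
    intro x i h ξ hξ
    obtain ⟨β, a1, a2⟩ := c8 ξ ((hδ ξ).2 hξ) (exists_gt ξ)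
    by_contra hn
    obtain ⟨F, f1, f2, f3⟩ := exists_mem_nhds_isClosed_subset
      ((Fib.closed (g := g) (z (e i)) β).isOpen_compl.mem_nhds fun k => hn (k ξ a2))
    obtain ⟨U, u1, u2, u3⟩ := mid β (z (e i)) _ f2.isOpen_compl (subset_compl_comm.1 f3)
    obtain ⟨_, -, a, a3, -, a4⟩ := h _ (c9 β a1 _ u1) u2
      (fun j => {y | j = i → y ∈ interior F}) fun j _ => by
        by_cases hj : j = i
        · subst hj
          simp only [forall_true_left]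
          exact ⟨isOpen_interior, mem_interior_iff_mem_nhds.2 f1⟩
        · simp [hj]
    exact u3 a3 (interior_subset ((a4 i (Nat.lt_succ_self i)).1 (Fib.self _ _) rfl))
  refine ⟨x1, x2, fun i => ⟨fib x1 _ fun K k1 k2 => h1 _ _ ⟨c10 K k1 _, k2⟩,
    fib x2 _ fun K k1 k2 => h2 _ _ ⟨c10 K k1 _, fun _ _ _ h _ => h,
      fun _ => univ, fun _ => ⟨isOpen_univ, trivial⟩, k2⟩⟩, fun L hL σ hσ O hO hw H => ?_⟩
  have hO' : ∀ (x : ℕ → X), (∀ i ∈ σ, x i ∈ O) → ∀ i,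
      IsOpen {y | i ∈ σ → y ∈ O} ∧ x i ∈ {y | i ∈ σ → y ∈ O} := fun x hx i => by
    by_cases hi : i ∈ σ
    · exact ⟨by simpa [hi] using hO, hx i⟩
    · simp [hi]
  obtain ⟨n, hn⟩ := hσ.bddAbove
  obtain ⟨β, a1, a, ⟨O', a2, a3⟩, a4, a5⟩ := h2 _ (n + 1) ⟨c13 L σ hL (c11 σ hσ fun i _ => c12 i),
    fun a U U' ⟨O', k1, k2⟩ k => ⟨O', k1, fun i hi => (k i).trans (k2 i hi)⟩, _,
    hO' x1 fun i hi => (hw i hi).1, O, H, fun i hi y hy => hy hi⟩ _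
    fun i _ => hO' x2 (fun i hi => (hw i hi).2) i
  obtain ⟨U, u1, u2, u3⟩ := hB.mid β _ O ((hσ.image a.1.2).image z) hO (forall_mem_image.2
    (forall_mem_image.2 fun i hi y hy => (a5 i (Nat.lt_succ_of_le (hn hi))).1 hy hi))
  choose! V d1 d2 d3 using fun i (hi : i ∈ σ) => (a5 i (Nat.lt_succ_of_le (hn hi))).2
  have d4 := hB.union β _ (hσ.image V) (image_subset_iff.2 d1)
  exact ⟨β, a1, U, u1, _, d4, u3, image_subset_iff.2 (image_subset_iff.2 fun i hi =>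
    ⟨_, ⟨i, hi, rfl⟩, d2 i hi⟩), a2 β a4 U u1 _ d4 u2
      (sUnion_subset (forall_mem_image.2 fun i hi => (d3 i hi).trans (a3 i hi)))⟩

theorem club_wit (hr : ∀ x : X, ∃ ρ, Fib g x ρ ⊆ {x}) (hB : Tubes g B) :
    ∀ᶠ N in Club, ∀ δ : Ω, (∀ ξ : Ω, In N ξ ↔ ξ < δ) →
      ∃ w, Bas g z δ w ∧ ∀ L : Set X → Set X → Prop, In N L → Swap z B L δ w := by
  classical
  filter_upwards [club_seq (z := z) hr hB] with N h δ hδ
  have key : ∀ s : Finset Ω, ∃ w : Ω → X × X,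
      (∀ γ ∈ s, (w γ).1 ∈ Fib g (z γ) δ ∧ (w γ).2 ∈ Fib g (z γ) δ) ∧
      (∀ γ γ', Fib g (z γ) δ = Fib g (z γ') δ → w γ = w γ') ∧
      ∀ L : Set X → Set X → Prop, In N L → ∀ t ⊆ (s : Set Ω), SwapAt z B L δ w t := by
    intro s
    obtain ⟨e, he⟩ : ∃ e : ℕ → Ω, (s : Set Ω) ⊆ range e :=
      ⟨_, subset_range_enumerate s.countable_toSet δ⟩
    obtain ⟨x1, x2, h1, h2⟩ := h δ hδ e
    choose! idx hidx using fun K (h : ∃ n, Fib g (z (e n)) δ = K) => h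
    have hix : ∀ γ ∈ s, Fib g (z (e (idx (Fib g (z γ) δ)))) δ = Fib g (z γ) δ := fun γ hγ =>
      hidx _ (let ⟨n, hn⟩ := he hγ; ⟨n, by rw [hn]⟩)
    refine ⟨fun γ => (x1 (idx (Fib g (z γ) δ)), x2 (idx (Fib g (z γ) δ))),
      fun γ hγ => hix γ hγ ▸ h1 _, fun γ γ' h => by simp only [h], fun L hL t ht O hO hw H => ?_⟩
    have hN : ∀ β < δ, ∀ U ∈ B β,
        z '' (e '' ((fun γ => idx (Fib g (z γ) δ)) '' t)) ⊆ U ↔ z '' t ⊆ U := by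
      intro β hβ U hU
      simp only [image_subset_iff]
      exact forall₂_congr fun γ hγ =>
        ⟨fun k => hB.sat β U hU _ k (Fib.anti _ hβ.le ((hix γ (ht hγ)).ge (Fib.self _ _))),
          fun k => hB.sat β U hU _ k (Fib.anti _ hβ.le ((hix γ (ht hγ)).le (Fib.self _ _)))⟩
    obtain ⟨β, a1, U, a2, V, a3, a4, a5, a6⟩ := h2 L hL _ ((s.finite_toSet.subset ht).image _) O hO
      (forall_mem_image.2 hw) fun β k U k1 V k2 k3 => H β k U k1 V k2 ((hN β k U k1).1 k3)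
    exact ⟨β, a1, U, a2, V, a3, a4, (hN β a1 V a3).1 a5, a6⟩
  choose W h1 h2 h3 using key
  obtain ⟨w, -, hw⟩ := isCompact_univ.exists_mapClusterPt (f := atTop) (u := W) (by simp)
  refine ⟨w, ⟨fun γ => ?_, fun γ γ' k => ?_⟩, fun L hL s hs O hO k => ?_⟩
  · have : IsClosed {w : Ω → X × X | (w γ).1 ∈ Fib g (z γ) δ ∧ (w γ).2 ∈ Fib g (z γ) δ} :=
      ((Fib.closed _ _).preimage (f := fun w : Ω → X × X => (w γ).1) (by fun_prop)).inter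
        ((Fib.closed _ _).preimage (f := fun w : Ω → X × X => (w γ).2) (by fun_prop))
    exact this.mem_of_mapClusterPt hw ((eventually_ge_atTop {γ}).mono fun s hs =>
        h1 s γ (hs (Finset.mem_singleton_self γ)))
  · have : IsClosed {w : Ω → X × X | w γ = w γ'} :=
      isClosed_eq (continuous_apply γ) (continuous_apply γ')
    exact this.mem_of_mapClusterPt hw (Eventually.of_forall fun s => h2 s γ γ' k)
  · obtain ⟨t, a1, a2⟩ := ((mapClusterPt_iff_frequently.1 hw _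
      ((open_wit hs hO).mem_nhds k)).and_eventually (eventually_ge_atTop hs.toFinset)).exists
    exact h3 t L hL s (fun γ hγ => a2 (hs.mem_toFinset.2 hγ)) O hO a1

end Pool.Agent.Lib.MP_563af5_gt
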