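import Mathlib

namespace Pool.Agent.Lib.MP_563af5_gt

open Set

/-- The well-order of countable ordinals. -/
abbrev W1 : Type := (Cardinal.aleph 1).ord.ToType

/-- The fibre of `x` at level `α`: the points agreeing with `x` in all coordinates below `α`. -/
def Fib {Ω X R : Type} [LT Ω] [TopologicalSpace X] [TopologicalSpace R] (g : Ω → C(X, R)) (x : X)
    (α : Ω) : Set X :=
  {y | ∀ ξ < α, g ξ y = g ξ x}

/-- Closed unbounded families of countable subsets of `A`. -/
def IsClub {A : Type} (C : Set (Set A)) : Prop :=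
  (∀ M ∈ C, M.Countable) ∧ (∀ s : Set A, s.Countable → ∃ M ∈ C, s ⊆ M) ∧
    ∀ f : ℕ → Set A, Monotone f → (∀ n, f n ∈ C) → (⋃ n, f n) ∈ C

/-- Dense subsets of a forcing order. -/
def IsDn {P : Type} [Preorder P] (D : Set P) : Prop := ∀ p, ∃ q ∈ D, q ≤ p

/-- Proper forcing: for club many countable sets `M` of conditions and sets of conditions, every
condition in `M` has an extension `q` below which `D ∩ M` is predense for all dense `D ∈ M`. -/
def Proper (P : Type) [Preorder P] : Prop :=
  ∃ C : Set (Set (P ⊕ Set P)), IsClub C ∧ ∀ M ∈ C, ∀ p, Sum.inl p ∈ M → ∃ q ≤ p,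
    ∀ D, Sum.inr D ∈ M → IsDn D → ∀ r ≤ q, ∃ d ∈ D, Sum.inl d ∈ M ∧ ∃ s, s ≤ r ∧ s ≤ d

/-- Weak `𝔠`-tightness: no continuous real function maps uncountably many fibres of `f` onto sets
containing the unit interval. -/
def WTight {X Y : Type} [TopologicalSpace X] (f : X → Y) : Prop :=
  ∀ h : C(X, ℝ), {y | Icc 0 1 ⊆ h '' (f ⁻¹' {y})}.Countable

/-- Weakly `𝔠`-dissipated spaces: every continuous map to a metrizable space is refined by a weakly
`𝔠`-tight continuous map to a metrizable space. -/
def Dissip (X : Type) [TopologicalSpace X] : Prop :=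
  ∀ (Z : Type) [TopologicalSpace Z] [TopologicalSpace.MetrizableSpace Z] (g : C(X, Z)),
    ∃ (Y : Type) (_ : TopologicalSpace Y) (_ : TopologicalSpace.MetrizableSpace Y) (f : C(X, Y)),
      WTight f ∧ ∀ x y, f x = f y → g x = g y

end Pool.Agent.Lib.MP_563af5_gt
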