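import Pool.Agent.Lib.MP_563af5_gt.ArPos

namespace Pool.Agent.Lib.MP_563af5_gt

open Set Filter Topology Pool.Agent.Lib.MP_fecf72_lc

variable {Ω X R : Type} [LinearOrder Ω] [TopologicalSpace X] [TopologicalSpace R]
  {g : Ω → C(X, R)} {z : Ω → X} {G : Set (Set (Ob Ω X))} {α0 : Ω} {B : Ω → Set (Set X)}

theorem fin_bound {s : Set Ω} (hs : s.Finite) {b δ : Ω} (hb : b < δ) (h : ∀ a ∈ s, a < δ) :
    ∃ β < δ, ∀ a ∈ s, a ≤ β := by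
  obtain ⟨β, h1, h2⟩ := exists_max_image (insert b s) id (hs.insert b) (insert_nonempty _ _)
  exact ⟨β, (forall_mem_insert (P := (· < δ))).2 ⟨hb, h⟩ β h1, fun a ha => h2 a (mem_insert_of_mem _ ha)⟩

theorem Tubes.fib (hB : Tubes g B) {β β' : Ω} {U : Set X} {x : X} (hU : U ∈ B β) (h : x ∈ U)
    (k : β ≤ β') : Fib g x β' ⊆ U := (Fib.anti _ k).trans (hB.sat β U hU x h)

/-- The values of the sections of `P` at nodes which split. -/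
def Spl (g : Ω → C(X, R)) (z : Ω → X) (P : BP Ω X) (S : Set Ω) : Set X :=
  ⋃ γ ∈ {γ ∈ S | Fib g (z γ) P.sm.lv ≠ Fib g (z γ) γ}, {(P.sm.wit γ).1, (P.sm.wit γ).2}

theorem Bas.spl {P : BP Ω X} (h : Bas g z P.sm.lv P.sm.wit) {γ : Ω} {S : Set Ω} (hγ : γ ∈ S)
    {U Y : Set X} (h1 : Fib g (z γ) γ ⊆ U) (h2 : Spl g z P S ⊆ Y) :
    (P.sm.wit γ).1 ∈ U ∪ Y ∧ (P.sm.wit γ).2 ∈ U ∪ Y := by
  by_cases k : Fib g (z γ) P.sm.lv = Fib g (z γ) γ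
  · exact ⟨Or.inl (h1 (k.le (h.1 γ).1)), Or.inl (h1 (k.le (h.1 γ).2))⟩
  · exact ⟨Or.inr (h2 (mem_biUnion (show γ ∈ {γ ∈ S | _} from ⟨hγ, k⟩) (Or.inl rfl))),
      Or.inr (h2 (mem_biUnion (show γ ∈ {γ ∈ S | _} from ⟨hγ, k⟩) (Or.inr rfl)))⟩

theorem Bas.ct [Om Ω] {δ : Ω} {w : Ω → X × X} (h : Bas g z δ w) {S : Set Ω}
    (hc : ((fun γ => Fib g (z γ) δ) '' S).Countable) : (w '' S).Countable := by
  choose! f _ hf using fun K (h : K ∈ (fun γ => Fib g (z γ) δ) '' S) => h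
  refine (hc.image fun K => w (f K)).mono ?_
  rintro _ ⟨γ, hγ, rfl⟩
  exact ⟨_, ⟨γ, hγ, rfl⟩, h.2 _ _ (hf _ ⟨γ, hγ, rfl⟩)⟩

omit [LinearOrder Ω] [TopologicalSpace X] in
theorem av_of {P : BP Ω X} {γ : Ω} {U Y F : Set X}
    (h : (P.sm.wit γ).1 ∈ U ∪ Y ∧ (P.sm.wit γ).2 ∈ U ∪ Y) (h1 : Disjoint U F) (h2 : Disjoint Y F) :
    Av P γ F :=
  ⟨disjoint_left.1 (disjoint_union_left.2 ⟨h1, h2⟩) h.1,
    disjoint_left.1 (disjoint_union_left.2 ⟨h1, h2⟩) h.2⟩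

theorem Bas.av {P : BP Ω X} (h : Bas g z P.sm.lv P.sm.wit) {γ : Ω} {F : Set X}
    (k : Disjoint (Fib g (z γ) P.sm.lv) F) : Av P γ F :=
  ⟨disjoint_left.1 k (h.1 γ).1, disjoint_left.1 k (h.1 γ).2⟩

variable [Om Ω] [CompactSpace X]

theorem MaxG.copy (hG : MaxG g z B G) (hB : Tubes g B) {q : Cond g z G α0} {M : BP Ω X}
    (hM : M ∈ q.pts) {π : Par g z G α0} {β0 : Ω} {S : Set Ω}
    (hS : S = Prod.fst '' {a ∈ q.els | M.sm.lv ≤ a.1}) (p1 : q ∈ π.1.1)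
    (p2 : ∀ P ∈ π.2.1, Spl g z P S ⊆ π.1.2)
    (p2' : ∀ b ∈ q.els, M.sm.lv ≤ b.1 → Disjoint π.1.2 b.2)
    (p3 : π.2.1 = {P ∈ q.pts | P.sm.lv < M.sm.lv})
    (p4 : π.2.2 = {a ∈ q.els | a.1 < M.sm.lv}) (b0 : β0 < M.sm.lv) (d1 : Diag (Prs B π) ∈ M.pr.1)
    (d2 : Swap z B (fun U V => ∃ i, Win π U V i ∅) M.sm.lv M.sm.wit) :
    ∃ β < M.sm.lv, ∃ U ∈ B β, ∃ V ∈ B β, (∀ b ∈ q.els, M.sm.lv ≤ b.1 → Disjoint U b.2) ∧
      z '' S ⊆ V ∧ ∃ s : Set (Ob Ω X), s.Finite ∧ (∀ P ∈ s, P ∈ M.sm.lib ∧ max β β0 < P.lv ∧ ∀ γ ∈ S,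
        ∀ b ∈ q.els, M.sm.lv ≤ b.1 → (P.wit γ).1 ∉ b.2 ∧ (P.wit γ).2 ∉ b.2) ∧
          ∃ c, W0 π U V s c := by
  have fS : S.Finite := hS ▸ (q.f2.sep _).image _
  let O : Set X := ⋂ b ∈ {a ∈ q.els | M.sm.lv ≤ a.1}, b.2ᶜ
  have hO : IsOpen O := (q.f2.sep _).isOpen_biInter fun b hb => (q.c4 b hb.1).1.isOpen_compl
  have mO : ∀ x, x ∈ O ↔ ∀ b ∈ q.els, M.sm.lv ≤ b.1 → x ∉ b.2 := fun x => by simp [O]
  have hw : ∀ γ ∈ S, (M.sm.wit γ).1 ∈ O ∧ (M.sm.wit γ).2 ∈ O := by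
    rw [hS]
    rintro _ ⟨a, ha, rfl⟩
    exact ⟨(mO _).2 fun b hb k => (q.c6 M hM a ha.1 b hb ha.2 k).1,
      (mO _).2 fun b hb k => (q.c6 M hM a ha.1 b hb ha.2 k).2⟩
  have fT := (q.f1.sep fun P => M.sm.lv ≤ P.sm.lv).image BP.sm
  obtain ⟨β, a1, U, a2, V, a2', a3, a3', i, a4⟩ := d2 S fS O hO hw fun β hβ U hU V hV k0 k => by
    refine hG.down π hU hV fT.toFinset ?_ ?_ 0 ⟨q, p1, p3 ▸ sep_subset _ _, p4 ▸ sep_subset _ _,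
      fun P hP => ?_, fun a ha => ?_⟩
    · simp only [Finite.mem_toFinset, forall_mem_image]
      intro P hP Q hQ h1 h2
      exact ((q.c2 P hP.1 Q hQ.1).1
        (h2.lt_of_ne fun e => h1 (congrArg _ ((q.c2 P hP.1 Q hQ.1).2 e)))).1
    · simp only [Finite.mem_toFinset, forall_mem_image]
      intro P hP
      refine ⟨hβ.trans_le hP.2, ((q.c1 P hP.1).2.1 _ ?_).2⟩
      rcases hP.2.eq_or_lt with e | e
      · exact (q.c2 M hM P hP.1).2 e ▸ d1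
      · exact ((q.c2 M hM P hP.1).1 e).2.2.2.2.1 d1
    · rw [p3, Finite.coe_toFinset]
      exact (lt_or_ge _ _).imp (fun k => ⟨hP, k⟩) fun k => ⟨P, ⟨hP, k⟩, rfl⟩
    · refine (lt_or_ge _ _).imp (fun k => p4 ▸ ⟨ha, k⟩) fun k' => ?_
      have : a.1 ∈ S := hS ▸ ⟨a, ⟨ha, k'⟩, rfl⟩
      exact ⟨k0 ⟨_, this, rfl⟩, disjoint_left.2 fun x hx => (mO x).1 (k hx) a ha k', p2' a ha k',
        fun P hP => (q.c1 P (p3.le hP).1).1.spl this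
          (hB.fib hU (k0 ⟨_, this, rfl⟩) (hβ.le.trans k')) (p2 P hP)⟩
  obtain ⟨s, e1, e2, e3⟩ := hG.up π a2 a2' ((q.c1 M hM).2.1 _ d1).2 a1 (max_lt a1 b0)
    (open_wit fS hO) hw i ∅ finite_empty (fun _ h => h.elim) a4
  exact ⟨β, a1, U, a2, V, a2', fun b hb k => disjoint_left.2 fun x hx => (mO x).1 (a3 hx) b hb k,
    a3', s, e1, fun P hP => ⟨(e2 P hP).1, (e2 P hP).2.1, fun γ hγ b hb k =>
      ⟨(mO _).1 ((e2 P hP).2.2 γ hγ).1 b hb k, (mO _).1 ((e2 P hP).2.2 γ hγ).2 b hb k⟩⟩, e3⟩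

theorem MaxG.gen (hG : MaxG g z B G) (hB : Tubes g B) (hc : ∀ α, α0 ≤ α →
      ((fun γ => Fib g (z γ) α) '' {γ | Fib g (z γ) α ≠ Fib g (z γ) γ}).Countable) :
    ∀ᶠ N in Club, ∃ M : BP Ω X, (∀ ξ : Ω, In N ξ ↔ ξ < M.sm.lv) ∧ (Bas g z M.sm.lv M.sm.wit ∧
      (∀ D ∈ M.pr.1, D ∈ G ∧ M.sm ∈ D) ∧ α0 ≤ M.sm.lv) ∧
      (∀ p : Cond g z G α0, In N p → ∃ q ≤ p, M ∈ q.pts) ∧
      ∀ q : Cond g z G α0, M ∈ q.pts → ∀ E : Set (Cond g z G α0), In N E → IsDn E →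
        ∃ d ∈ E, In N d ∧ ∃ s, s ≤ q ∧ s ≤ d := by
  filter_upwards [hG.trace, club_countable, clo0 {P : Ob Ω X | Bas g z P.lv P.wit},
    clo_sub (fun c : Cond g z G α0 => c.pts) fun c => c.f1.countable,
    clo_sub (fun c : Cond g z G α0 => c.els) fun c => c.f2.countable,
    clo1 (BP.sm : BP Ω X → Ob Ω X), clo1 (Ob.lv : Ob Ω X → Ω), clo_sub Ob.lib Ob.lib_ct,
    clo_sub BP.bl BP.bl_ct, clo_sub (fun P : BP Ω X => P.pr.1) fun P => P.pr.2,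
    clo_sub (fun P : BP Ω X => P.be.1) fun P => P.be.2, clo1 (Prod.fst : Ω × Set X → Ω),
    club_fin (BP Ω X), club_fin (Ω × Set X), club_fin (Ob Ω X), clo0 α0, clo_sub B hB.ct,
    clo4 fun (a : Set (Cond g z G α0)) (b : Set X) (c : Set (BP Ω X)) (d : Set (Ω × Set X)) =>
      (((a, b), (c, d)) : Par g z G α0),
    clo1 fun π : Par g z G α0 => Diag (Prs B π),
    clo1 fun π : Par g z G α0 => {P : Ob Ω X | Swap z B (fun U V => ∃ i, Win π U V i ∅) P.lv P.wit},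
    sk4 fun (π : Par g z G α0) U V s c => W0 π U V s c, club_fin X,
    clo_sub (fun P : BP Ω X => {x | (Bas g z P.sm.lv P.sm.wit ∧ α0 ≤ P.sm.lv) ∧ x ∈ Spl g z P univ})
      fun P => by
        by_cases h : Bas g z P.sm.lv P.sm.wit ∧ α0 ≤ P.sm.lv
        · have := h.1.ct (hc _ h.2)
          refine ((this.image Prod.fst).union (this.image Prod.snd)).mono fun x hx => ?_
          obtain ⟨γ, k1, k2⟩ := mem_iUnion₂.1 hx.2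
          exact k2.imp (fun k => ⟨_, ⟨γ, k1.2, rfl⟩, k.symm⟩) fun k => ⟨_, ⟨γ, k1.2, rfl⟩, k.symm⟩
        · simp [h]]
    with N ⟨Q, t1, t2, t3⟩ ct c0 c1 c2 c3 c4 c5 c6 c7 c8 c9 c10 c11 c12 c13 c14 c15 c16 c17 c18
      c19 c20
  obtain ⟨M, rfl, m1, m2, m3⟩ := exists_bp Q ((countable_In (Set (Ob Ω X)) ct).mono
    (show {D | D ∈ G ∧ In N D} ⊆ _ from fun _ h => h.2)) (countable_In (Ω × Set X) ct)
    (countable_In (BP Ω X) ct)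
  have hP : Bas g z M.sm.lv M.sm.wit ∧ (∀ D ∈ M.pr.1, D ∈ G ∧ M.sm ∈ D) ∧ α0 ≤ M.sm.lv :=
    ⟨t3 _ hG.bas c0, fun D hD => ⟨(m1.le hD).1, t3 D (m1.le hD).1 (m1.le hD).2⟩, ((t1 _).1 c13).le⟩
  have k1 : ∀ c : Cond g z G α0, In N c → ∀ P ∈ c.pts, P.sm.lv < M.sm.lv ∧ Bel P M := by
    intro c hc P h
    have := c1 c hc P h
    exact ⟨(t1 _).1 (c4 _ (c3 P this)), t2 ▸ c3 P this, t2 ▸ c5 _ (c3 P this), m3 ▸ this,
      m3 ▸ c6 P this, m1 ▸ fun D hD => ⟨((c.c1 P h).2.1 D hD).1, c7 P this D hD⟩, m2 ▸ c8 P this⟩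
  have k2 : ∀ c : Cond g z G α0, In N c → ∀ a ∈ c.els, a.1 < M.sm.lv ∧ a ∈ M.be.1 :=
    fun c hc a h => ⟨(t1 _).1 (c9 _ (c2 c hc a h)), m2 ▸ c2 c hc a h⟩
  refine ⟨M, t1, hP, fun p hp => ⟨⟨insert M p.pts, p.els, p.f1.insert M, p.f2,
    forall_mem_insert.2 ⟨hP, p.c1⟩, ?_, fun a ha => forall_mem_insert.2
      ⟨fun _ => (k2 p hp a ha).2, p.c3 a ha⟩, p.c4, p.c5, forall_mem_insert.2
      ⟨fun a ha _ _ k => absurd (k2 p hp a ha).1 k.not_gt, p.c6⟩⟩,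
    ⟨subset_insert _ _, subset_rfl⟩, mem_insert _ _⟩, fun q0 hq0 E hE dE => ?_⟩
  · rintro P (rfl | h) Q (rfl | h')
    · exact ⟨fun k => absurd k (lt_irrefl _), fun _ => rfl⟩
    · exact ⟨fun k => absurd k (k1 p hp Q h').1.not_gt, fun k => absurd k (k1 p hp Q h').1.ne'⟩
    · exact ⟨fun _ => (k1 p hp P h).2, fun k => absurd k (k1 p hp P h).1.ne⟩
    · exact p.c2 P h Q h'
  obtain ⟨q, hq, hq'⟩ := dE q0
  have hM := hq'.1 hq0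
  have f1 := q.f1.sep fun P => P.sm.lv < M.sm.lv
  have f2 := q.f2.sep fun a => a.1 < M.sm.lv
  obtain ⟨β0, b0, b1⟩ := fin_bound (f2.image Prod.fst) ((t1 _).1 c13)
    (forall_mem_image.2 fun a h => h.2)
  obtain ⟨S, hS⟩ : ∃ S, S = Prod.fst '' {a ∈ q.els | M.sm.lv ≤ a.1} := ⟨_, rfl⟩
  have fS : S.Finite := hS ▸ (q.f2.sep _).image _
  have mS : ∀ a ∈ q.els, M.sm.lv ≤ a.1 → a.1 ∈ S := fun a h k => hS ▸ ⟨a, ⟨h, k⟩, rfl⟩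
  have n1 := fun P (h : P ∈ {P ∈ q.pts | P.sm.lv < M.sm.lv}) =>
    m3.le ((q.c2 P h.1 M hM).1 h.2).2.2.1
  obtain ⟨Y, hY⟩ : ∃ Y, Y = ⋃ P ∈ {P ∈ q.pts | P.sm.lv < M.sm.lv}, Spl g z P S := ⟨_, rfl⟩
  have y1 : ∀ P ∈ {P ∈ q.pts | P.sm.lv < M.sm.lv}, Spl g z P S ⊆ Y := fun P h =>
    hY ▸ subset_biUnion_of_mem (u := fun P => Spl g z P S) h
  have y2 : ∀ b ∈ q.els, M.sm.lv ≤ b.1 → Disjoint Y b.2 := fun b hb k => by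
    refine disjoint_left.2 fun x hx => ?_
    obtain ⟨P, e1, e2⟩ := mem_iUnion₂.1 (hY.le hx)
    obtain ⟨γ, e3, e4⟩ := mem_iUnion₂.1 e2
    obtain ⟨a, e5, rfl⟩ := hS.le e3.1
    have := q.c6 P e1.1 a e5.1 b hb (e1.2.le.trans e5.2) (e1.2.le.trans k)
    rcases e4 with rfl | rfl
    exacts [this.1, this.2]
  have hπ := c15 E Y _ _ hE (c19 Y (hY ▸ f1.biUnion fun P _ => (fS.sep _).biUnion fun _ _ =>
      toFinite _) fun x hx => by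
        obtain ⟨P, e1, e2⟩ := mem_iUnion₂.1 (hY.le hx)
        exact c20 P (n1 P e1) x ⟨⟨(q.c1 P e1.1).1, (q.c1 P e1.1).2.2⟩,
          let ⟨γ, h, k⟩ := mem_iUnion₂.1 e2; mem_iUnion₂.2 ⟨γ, ⟨trivial, h.2⟩, k⟩⟩)
    (c10 _ f1 n1) (c11 _ f2 fun a h => m2.le (q.c3 a h.1 M hM h.2))
  obtain ⟨β, a1, U, a2, V, a2', a3, a3', s, a4, a5, a6⟩ := hG.copy hB hM hS hq y1 y2 rfl rfl b0
    (m1.ge ⟨hG.diag (Prs_ct hB _) (hG.prs _), c16 _ hπ⟩) (t3 _ (hG.swap _) (c17 _ hπ))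
  obtain ⟨r, r0, r1, r2, r3, r4, r5⟩ := c18 _ _ _ s hπ (c14 β ((t1 _).2 a1) _ a2)
    (c14 β ((t1 _).2 a1) _ a2') (c12 s a4 fun P h => t2.le (a5 P h).1) a6
  have u2 : ∀ a ∈ r.els ∪ q.els, a ∈ r.els ∨ a ∈ q.els ∧ M.sm.lv ≤ a.1 := fun a h =>
    h.elim Or.inl fun h => (lt_or_ge _ _).imp (fun k => r3 ⟨h, k⟩) fun k => ⟨h, k⟩
  have u0 : ∀ a ∈ q.els, M.sm.lv ≤ a.1 → ∀ ξ, β ≤ ξ → Fib g (z a.1) ξ ⊆ V := fun a h k ξ =>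
    hB.fib a2' (a3' ⟨_, mS a h k, rfl⟩)
  obtain ⟨u, u1, u3⟩ := amalg hM (k1 r r0) (k2 r r0) (fun P h k => r2 ⟨h, k⟩)
    (fun a h k => r3 ⟨h, k⟩) (fun a ha b hb k => (r5 a ha).elim
      (fun h => q.c5 a h.1 b hb (h.2.trans_le k))
      fun h => h.2.1.mono_left (u0 b hb k _ (a1.le.trans k))) (by
    intro P hP a ha b hb l1 l2
    have hb' := (r.c1 P hP).1
    rcases r4 P hP with h | h
    · rcases u2 a ha with h1 | ⟨h1, h2⟩ <;> rcases u2 b hb with h3 | ⟨h3, h4⟩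
      · exact r.c6 P hP a h1 b h3 l1 l2
      · rcases r5 a h1 with h5 | h5
        · exact q.c6 P h.1 a h5.1 b h3 l1 l2
        · exact av_of (h5.2.2.2 P h) (a3 b h3 h4) (y2 b h3 h4)
      · rcases r5 b h3 with h5 | h5
        · exact q.c6 P h.1 a h1 b h5.1 l1 l2
        · exact av_of (hb'.spl (mS a h1 h2) (u0 a h1 h2 _ (a1.le.trans h2)) (y1 P h)) h5.2.1 h5.2.2.1
      · exact q.c6 P h.1 a h1 b h3 l1 l2
    · obtain ⟨-, l3, l4⟩ := a5 _ h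
      have l5 : ∀ a ∈ q.els, a.1 < M.sm.lv → ¬ P.sm.lv ≤ a.1 := fun a k k' =>
        ((b1 _ ⟨a, ⟨k, k'⟩, rfl⟩).trans_lt ((le_max_right _ _).trans_lt l3)).not_ge
      have l6 := ((le_max_left _ _).trans_lt l3).le
      rcases u2 a ha with h1 | ⟨h1, h2⟩ <;> rcases u2 b hb with h3 | ⟨h3, h4⟩
      · exact r.c6 P hP a h1 b h3 l1 l2
      · rcases r5 a h1 with h5 | h5
        · exact (l5 a h5.1 h5.2 l1).elim
        · exact hb'.av ((a3 b h3 h4).mono_left (hB.fib a2 h5.1 l6))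
      · rcases r5 b h3 with h5 | h5
        · exact (l5 b h5.1 h5.2 l2).elim
        · exact hb'.av (h5.2.1.mono_left (u0 a h1 h2 _ l6))
      · exact l4 _ (mS a h1 h2) b h3 h4)
  exact ⟨r, r1, r0, u, u1.trans hq', u3⟩

end Pool.Agent.Lib.MP_563af5_gt
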