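import Pool.Agent.Lib.MP_563af5_gt.ArBase

namespace Pool.Agent.Lib.MP_563af5_gt

open Set Filter Topology Pool.Agent.Lib.MP_fecf72_lc

/-- Small points: a level, a pair of sections and a countable library of earlier points. -/
inductive Ob (Ω X : Type) : Type
  | pt : Ω → (Ω → X × X) → (s : Set ℕ) → (s → Ob Ω X) → Ob Ω X

variable {Ω : Type} {X : Type}

/-- The level. -/
def Ob.lv : Ob Ω X → Ω
  | .pt δ _ _ _ => δ

/-- The sections. -/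
def Ob.wit : Ob Ω X → Ω → X × X
  | .pt _ w _ _ => w

/-- The library. -/
def Ob.lib : Ob Ω X → Set (Ob Ω X)
  | .pt _ _ _ l => range l

theorem Ob.lib_ct : ∀ P : Ob Ω X, P.lib.Countable
  | .pt _ _ _ l => countable_range l

theorem exists_idx {T : Type} {L : Set T} (h : L.Countable) :
    ∃ (s : Set ℕ) (l : s → T), range l = L := by
  rcases L.eq_empty_or_nonempty with rfl | k
  · exact ⟨∅, fun i => i.2.elim, range_eq_empty _⟩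
  · obtain ⟨f, rfl⟩ := h.exists_eq_range k
    exact ⟨univ, fun i => f i, by ext; simp⟩

theorem exists_ob (δ : Ω) (w : Ω → X × X) {L : Set (Ob Ω X)} (h : L.Countable) :
    ∃ P : Ob Ω X, P.lv = δ ∧ P.wit = w ∧ P.lib = L :=
  let ⟨s, l, k⟩ := exists_idx h; ⟨.pt δ w s l, rfl, rfl, k⟩

variable [LinearOrder Ω] [Om Ω] [TopologicalSpace X]

/-- Limits of points of `Z`. -/
def Lam (Z : Set (Ob Ω X)) : Set (Ob Ω X) :=
  {P | ∀ W, IsOpen W → P.wit ∈ W → ∀ β, ∀ a : Set (Ob Ω X), a.Finite → a ⊆ P.lib → ∃ Q ∈ Z,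
    Q ∈ P.lib ∧ (β < P.lv → β < Q.lv) ∧ Q.lv < P.lv ∧ a ⊆ Q.lib ∧ Q.lib ⊆ P.lib ∧ Q.wit ∈ W}

omit [Om Ω] in
theorem Lam_mono {Z Z' : Set (Ob Ω X)} (h : Z ⊆ Z') : Lam Z ⊆ Lam Z' :=
  fun _ k W h1 h2 β a h3 h4 => let ⟨Q, h5, h6⟩ := k W h1 h2 β a h3 h4; ⟨Q, h h5, h6⟩

omit [Om Ω] in
theorem Lam_Lam (Z : Set (Ob Ω X)) : Lam (Lam Z) ⊆ Lam Z := by
  intro P k W h1 h2 β a h3 h4
  obtain ⟨Q, a1, -, a3, a4, a5, a6, a7⟩ := k W h1 h2 β a h3 h4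
  obtain ⟨R, b1, b2, b3, b4, b5, b6, b7⟩ := a1 W h1 a7 β a h3 a5
  exact ⟨R, b1, a6 b2, fun h => b3 (a3 h), b4.trans a4, b5, b6.trans a6, b7⟩

theorem chain_lim [CompactSpace X] {A : Set (Ob Ω X)} {D : ℕ → Ob Ω X → Set (Ob Ω X)}
    (h0 : A.Nonempty) (h : ∀ n, ∀ P ∈ A, ∃ Q ∈ A, Q ∈ D n P ∧ P.lv < Q.lv ∧ insert P P.lib ⊆ Q.lib) :
    ∃ (f : ℕ → Ob Ω X) (Q : Ob Ω X), (∀ n, f n ∈ A ∧ f (n + 1) ∈ D n (f n)) ∧
      (∀ n, (f n).lv < Q.lv) ∧ Q.lib = ⋃ n, (f n).lib ∧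
      (∀ β < Q.lv, ∀ᶠ n in atTop, β < (f n).lv) ∧
      (∀ a : Set (Ob Ω X), a.Finite → a ⊆ Q.lib → ∀ᶠ n in atTop, a ⊆ (f n).lib) ∧
      ∀ Z, (∀ᶠ n in atTop, f n ∈ Z) → Q ∈ Lam Z := by
  choose! nx h1 h2 h3 h4 using h
  obtain ⟨P0, h0⟩ := h0
  let f : ℕ → Ob Ω X := fun n => Nat.rec P0 nx n
  have hf : ∀ n, f n ∈ A := fun n => Nat.rec h0 (fun n ih => h1 n _ ih) n
  have m1 : StrictMono fun n => (f n).lv := strictMono_nat_of_lt_succ fun n => h3 n _ (hf n)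
  have m2 : Monotone fun n => (f n).lib :=
    monotone_nat_of_le_succ fun n => (subset_insert _ _).trans (h4 n _ (hf n))
  obtain ⟨δ, d1, d2⟩ := om_sup _ m1
  obtain ⟨w, -, hw⟩ := isCompact_univ.exists_mapClusterPt (f := atTop) (u := fun n => (f n).wit)
    (by simp)
  obtain ⟨Q, rfl, rfl, q⟩ := exists_ob δ w (countable_iUnion fun n => (f n).lib_ct)
  have e1 : ∀ β < Q.lv, ∀ᶠ n in atTop, β < (f n).lv := fun β hβ =>
    let ⟨n, hn⟩ := d2 β hβ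
    (eventually_ge_atTop n).mono fun m hm => hn.trans_le (m1.monotone hm)
  have e2 : ∀ a : Set (Ob Ω X), a.Finite → a ⊆ Q.lib → ∀ᶠ n in atTop, a ⊆ (f n).lib :=
    fun a k1 k2 => (eventually_all_finite k1).2 fun b hb =>
      let ⟨n, hn⟩ := mem_iUnion.1 (q ▸ k2 hb)
      (eventually_ge_atTop n).mono fun m hm => m2 hm hn
  refine ⟨f, Q, fun n => ⟨hf n, h2 n _ (hf n)⟩, d1, q, e1, e2, fun Z hZ W k1 k2 β a k3 k4 => ?_⟩
  have e3 : ∀ᶠ n in atTop, β < Q.lv → β < (f n).lv := by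
    by_cases k : β < Q.lv
    · exact (e1 β k).mono fun _ h _ => h
    · exact Eventually.of_forall fun _ h => (k h).elim
  obtain ⟨n, a1, a2, a3, a4⟩ := ((mapClusterPt_iff_frequently.1 hw W (k1.mem_nhds k2)).and_eventually
    (hZ.and (e3.and (e2 a k3 k4)))).exists
  exact ⟨f n, a2, q ▸ mem_iUnion.2 ⟨n + 1, h4 n _ (hf n) (mem_insert _ _)⟩, a3, d1 n, a4,
    q ▸ subset_iUnion (fun n => (f n).lib) n, a1⟩

variable {R : Type} [TopologicalSpace R] (g : Ω → C(X, R)) (z : Ω → X) (B : Ω → Set (Set X))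

/-- A maximal filter of invariant sets containing the basic laws. -/
structure MaxG (G : Set (Set (Ob Ω X))) : Prop where
  inv : ∀ Z ∈ G, Lam Z ⊆ Z
  ne : ∀ Z ∈ G, Z.Nonempty
  inter : ∀ Z ∈ G, ∀ Z' ∈ G, Z ∩ Z' ∈ G
  mx : ∀ Z, Lam Z ⊆ Z → (∀ D ∈ G, (Z ∩ D).Nonempty) → Z ∈ G
  bas : {P | Bas g z P.lv P.wit} ∈ G
  swap : ∀ L, {P | Swap z B L P.lv P.wit} ∈ G
  cone : ∀ β (a : Set (Ob Ω X)), a.Countable → {P | β < P.lv ∧ a ⊆ P.lib} ∈ G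

variable {g z B}

omit [Om Ω] in
theorem inv_bas [T2Space X] [T2Space R] :
    Lam {P : Ob Ω X | Bas g z P.lv P.wit} ⊆ {P | Bas g z P.lv P.wit} := by
  intro P h
  have key : ∀ C : Set (Ω → X × X), IsClosed C → ∀ β, (∀ δ w, Bas g z δ w → (β < P.lv → β < δ) →
      δ < P.lv → w ∈ C) → P.wit ∈ C := by
    intro C h1 β h2
    by_contra hc
    obtain ⟨Q, a1, -, a2, a3, -, -, a4⟩ := h _ h1.isOpen_compl hc β ∅ finite_empty (empty_subset _)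
    exact a4 (h2 _ _ a1 a2 a3)
  refine ⟨fun γ => ⟨fun ξ hξ => ?_, fun ξ hξ => ?_⟩, fun γ γ' k => ?_⟩
  · exact key {w | g ξ (w γ).1 = g ξ (z γ)} (isClosed_eq (by fun_prop) continuous_const) ξ
      fun δ w k1 k2 _ => (k1.1 γ).1 ξ (k2 hξ)
  · exact key {w | g ξ (w γ).2 = g ξ (z γ)} (isClosed_eq (by fun_prop) continuous_const) ξ
      fun δ w k1 k2 _ => (k1.1 γ).2 ξ (k2 hξ)
  · exact key {w | w γ = w γ'} (isClosed_eq (by fun_prop) (by fun_prop)) γ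
      fun δ w k1 _ k3 => k1.2 _ _ (Fib.eq (k.le (Fib.self _ _)) k3.le)

omit [Om Ω] in
theorem inv_swap (L : Set X → Set X → Prop) :
    Lam {P : Ob Ω X | Swap z B L P.lv P.wit} ⊆ {P | Swap z B L P.lv P.wit} := by
  intro P h s hs O hO h1 h2
  obtain ⟨Q, a1, -, -, a3, -, -, a4⟩ := h _ (open_wit hs hO) h1 P.lv ∅ finite_empty (empty_subset _)
  obtain ⟨β, b1, b2⟩ := a1 s hs O hO a4 fun β k => h2 β (k.trans a3)
  exact ⟨β, b1.trans a3, b2⟩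

omit [Om Ω] in
theorem inv_cone (β : Ω) (a : Set (Ob Ω X)) :
    Lam {P : Ob Ω X | β < P.lv ∧ a ⊆ P.lib} ⊆ {P | β < P.lv ∧ a ⊆ P.lib} := by
  intro P h
  obtain ⟨Q, a1, -, -, a3, -, a4, -⟩ := h _ isOpen_univ trivial β ∅ finite_empty (empty_subset _)
  exact ⟨a1.1.trans a3, a1.2.trans a4⟩

theorem exists_maxG [CompactSpace X] [T2Space X] [T2Space R] (hr : ∀ x : X, ∃ ρ, Fib g x ρ ⊆ {x})
    (hc : Tubes g B) : ∃ G, MaxG g z B G := by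
  let T : Set Wd → Ob Ω X → Prop := fun N P => (∀ ξ : Ω, In N ξ ↔ ξ < P.lv) ∧
    P.lib = {o : Ob Ω X | In N o} ∧ Bas g z P.lv P.wit ∧
    ∀ L : Set X → Set X → Prop, In N L → Swap z B L P.lv P.wit
  have hT : ∀ᶠ N in Club, ∃ P, T N P := by
    filter_upwards [club_ht (Ω := Ω), club_wit (z := z) hr hc, club_countable] with N ⟨δ, h1⟩ h2 h3
    obtain ⟨w, h4⟩ := h2 δ h1
    obtain ⟨P, rfl, rfl, h5⟩ := exists_ob δ w (countable_In (Ob Ω X) h3)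
    exact ⟨P, h1, h5, h4⟩
  obtain ⟨G, h1, h2⟩ := zorn_subset_nonempty
    {G : Set (Set (Ob Ω X)) | (∀ Z ∈ G, Lam Z ⊆ Z ∧ Z.Nonempty) ∧ ∀ Z ∈ G, ∀ Z' ∈ G, Z ∩ Z' ∈ G}
    (fun c hc' hch _ => ⟨⋃₀ c, ⟨fun Z ⟨G, h1, h2⟩ => (hc' h1).1 Z h2,
      fun Z ⟨G, h1, h2⟩ Z' ⟨G', h3, h4⟩ => (hch.total h1 h3).elim
        (fun k => ⟨G', h3, (hc' h3).2 Z (k h2) Z' h4⟩) fun k => ⟨G, h1, (hc' h1).2 Z h2 Z' (k h4)⟩⟩,
      fun s hs => subset_sUnion_of_mem hs⟩)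
    {Z | Lam Z ⊆ Z ∧ ∀ᶠ N in Club, ∀ P, T N P → P ∈ Z}
    ⟨fun Z h => ⟨h.1, let ⟨_, ⟨P, k1⟩, k2⟩ := (hT.and h.2).exists; ⟨P, k2 P k1⟩⟩,
      fun Z h Z' h' => ⟨subset_inter ((Lam_mono inter_subset_left).trans h.1)
        ((Lam_mono inter_subset_right).trans h'.1),
        (h.2.and h'.2).mono fun N k P hP => ⟨k.1 P hP, k.2 P hP⟩⟩⟩
  have hi : ∀ Z Z' : Set (Ob Ω X), Lam Z ⊆ Z → Lam Z' ⊆ Z' → Lam (Z ∩ Z') ⊆ Z ∩ Z' :=
    fun Z Z' h h' => subset_inter ((Lam_mono inter_subset_left).trans h)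
      ((Lam_mono inter_subset_right).trans h')
  refine ⟨G, fun Z h => (h2.prop.1 Z h).1, fun Z h => (h2.prop.1 Z h).2, h2.prop.2,
    fun Z k1 k2 => ?_, h1 ⟨inv_bas, Eventually.of_forall fun N P h => h.2.2.1⟩,
    fun L => h1 ⟨inv_swap L, (clo0 L).mono fun N k P h => h.2.2.2 L k⟩,
    fun β a ha => h1 ⟨inv_cone β a, ?_⟩⟩
  · refine h2.le_of_ge (y := G ∪ (fun D => Z ∩ D) '' G) ⟨?_, ?_⟩ subset_union_left
      (Or.inr ⟨univ, h1 ⟨subset_univ _, Eventually.of_forall fun _ _ _ => trivial⟩, inter_univ Z⟩)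
    · rintro _ (h | ⟨D, h, rfl⟩)
      exacts [h2.prop.1 _ h, ⟨hi _ _ k1 (h2.prop.1 _ h).1, k2 D h⟩]
    · rintro D (h | ⟨D, h, rfl⟩) D' (h' | ⟨D', h', rfl⟩)
      · exact Or.inl (h2.prop.2 _ h _ h')
      · exact Or.inr ⟨_, h2.prop.2 _ h _ h', inter_left_comm _ _ _⟩
      · exact Or.inr ⟨_, h2.prop.2 _ h _ h', (inter_assoc _ _ _).symm⟩
      · exact Or.inr ⟨_, h2.prop.2 _ h _ h', inter_inter_distrib_left _ _ _⟩
  · filter_upwards [clo0 β, (eventually_countable_ball ha).2 fun o _ => clo0 o] with N k1 k2 P h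
    exact ⟨(h.1 β).1 k1, h.2.1 ▸ k2⟩

variable {G : Set (Set (Ob Ω X))} [CompactSpace X]

/-- Sets meeting every member of the filter. -/
def Lrg (G : Set (Set (Ob Ω X))) (Z : Set (Ob Ω X)) : Prop := ∀ D ∈ G, (Z ∩ D).Nonempty

omit [Om Ω] [CompactSpace X] in
theorem MaxG.step (hG : MaxG g z B G) {Z D : Set (Ob Ω X)} (hZ : Lrg G Z) (hD : D ∈ G) (P : Ob Ω X) :
    ∃ Q ∈ Z, Q ∈ D ∧ P.lv < Q.lv ∧ insert P P.lib ⊆ Q.lib :=
  hZ _ (hG.inter _ hD _ (hG.cone P.lv _ (P.lib_ct.insert P)))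

omit [Om Ω] [CompactSpace X] in
theorem MaxG.lrg (hG : MaxG g z B G) {Z : Set (Ob Ω X)} (hZ : Z ∈ G) : Lrg G Z :=
  fun D hD => hG.ne _ (hG.inter _ hZ D hD)

theorem MaxG.lam (hG : MaxG g z B G) {Z : Set (Ob Ω X)} (hZ : Lrg G Z) : Lam Z ∈ G := by
  refine hG.mx _ (Lam_Lam Z) fun D hD => ?_
  obtain ⟨f, Q, h1, -, -, -, -, h2⟩ := chain_lim (A := Z ∩ D) (D := fun _ _ => univ) (hZ D hD)
    fun n P _ => let ⟨Q, a1, a2, a3⟩ := hG.step hZ hD P; ⟨Q, ⟨a1, a2⟩, trivial, a3⟩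
  exact ⟨Q, h2 _ (Eventually.of_forall fun n => (h1 n).1.1),
    hG.inv D hD (h2 _ (Eventually.of_forall fun n => (h1 n).1.2))⟩

omit [Om Ω] [CompactSpace X] in
theorem MaxG.top (hG : MaxG g z B G) : univ ∈ G :=
  hG.mx _ (subset_univ _) fun D hD => by simpa using hG.ne D hD

omit [Om Ω] [CompactSpace X] in
theorem MaxG.fin (hG : MaxG g z B G) {T : ℕ → Set (Ob Ω X)} (h : ∀ n, T n ∈ G) (n : ℕ) :
    {P | ∀ i < n, P ∈ T i} ∈ G := by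
  induction n with
  | zero => simpa using hG.top
  | succ n ih =>
    convert hG.inter _ ih _ (h n) using 1
    ext P
    exact Nat.forall_lt_succ_right

theorem MaxG.sInter (hG : MaxG g z B G) {T : Set (Set (Ob Ω X))} (h1 : T.Countable) (h2 : T ⊆ G) :
    ⋂₀ T ∈ G := by
  rcases T.eq_empty_or_nonempty with rfl | hne
  · simpa using hG.top
  obtain ⟨T, rfl⟩ := h1.exists_eq_range hne
  have hT := range_subset_iff.1 h2
  refine hG.mx _ (subset_sInter fun Z hZ => (Lam_mono (sInter_subset_of_mem hZ)).trans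
    (hG.inv Z (h2 hZ))) fun D hD => ?_
  obtain ⟨f, Q, a1, -, -, -, -, a2⟩ := chain_lim (A := D) (D := fun n _ => {P | ∀ i < n, P ∈ T i})
    (hG.ne D hD) fun n P _ => hG.step (hG.lrg hD) (hG.fin hT n) P
  refine ⟨Q, mem_sInter.2 (forall_mem_range.2 fun i => hG.inv _ (hT i) (a2 _ ?_)),
    hG.inv D hD (a2 _ (Eventually.of_forall fun n => (a1 n).1))⟩
  refine (eventually_ge_atTop (i + 2)).mono fun n hn => ?_
  obtain ⟨m, rfl⟩ := Nat.exists_eq_add_one_of_ne_zero (show n ≠ 0 by omega)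
  exact (a1 m).2 i (by omega)

/-- Diagonal intersections. -/
def Diag (F : Set (Ob Ω X) → Ω → Set (Set (Ob Ω X))) : Set (Ob Ω X) :=
  {P | ∀ s : Set (Ob Ω X), s.Finite → s ⊆ P.lib → ∀ β < P.lv, ∀ D ∈ F s β, P ∈ D}

theorem MaxG.diag (hG : MaxG g z B G) {F : Set (Ob Ω X) → Ω → Set (Set (Ob Ω X))}
    (h1 : ∀ s β, (F s β).Countable) (h2 : ∀ s β, F s β ⊆ G) : Diag F ∈ G := by
  refine hG.mx _ (fun P h s hs k1 β k2 D hD => hG.inv D (h2 s β hD) fun W a1 a2 β' a a3 a4 => ?_)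
    fun D hD => ?_
  · obtain ⟨β'', b1, b2, b3⟩ : ∃ β'' < P.lv, β ≤ β'' ∧ (β' < P.lv → β' ≤ β'') := by
      by_cases k : β' < P.lv
      · exact ⟨max β β', max_lt k2 k, le_max_left _ _, fun _ => le_max_right _ _⟩
      · exact ⟨β, k2, le_rfl, fun h => (k h).elim⟩
    obtain ⟨Q, c1, c2, c3, c4, c5, c6⟩ := h W a1 a2 β'' (a ∪ s) (a3.union hs) (union_subset a4 k1)
    exact ⟨Q, c1 s hs (subset_union_right.trans c5) β (b2.trans_lt (c3 b1)) D hD, c2,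
      fun k => (b3 k).trans_lt (c3 b1), c4, subset_union_left.trans c5, c6⟩
  obtain ⟨f, Q, a1, -, -, a2, a3, a4⟩ := chain_lim (A := D)
    (D := fun _ P => ⋂₀ ⋃ s ∈ {s : Set (Ob Ω X) | s.Finite ∧ s ⊆ P.lib}, ⋃ β ∈ Iio P.lv, F s β)
    (hG.ne D hD) fun n P _ => hG.step (hG.lrg hD) (hG.sInter
      ((countable_ofPred_finite_subset P.lib_ct).biUnion fun s _ =>
        (Om.ct _).biUnion fun β _ => h1 s β)
      (iUnion₂_subset fun s _ => iUnion₂_subset fun β _ => h2 s β)) P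
  refine ⟨Q, fun s hs k1 β k2 E hE => hG.inv _ (h2 s β hE) (a4 _ ?_),
    hG.inv D hD (a4 _ (Eventually.of_forall fun n => (a1 n).1))⟩
  obtain ⟨m, hm⟩ := eventually_atTop.1 ((a2 β k2).and (a3 s hs k1))
  refine (eventually_ge_atTop (m + 1)).mono fun n hn => ?_
  obtain ⟨j, rfl⟩ := Nat.exists_eq_add_one_of_ne_zero (show n ≠ 0 by omega)
  have := hm j (by omega)
  exact (a1 j).2 E (mem_biUnion (show s ∈ {s : Set (Ob Ω X) | s.Finite ∧ s ⊆ (f j).lib} from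
    ⟨hs, this.2⟩) (mem_biUnion this.1 hE))

theorem MaxG.trace (hG : MaxG g z B G) : ∀ᶠ N in Club, ∃ Q : Ob Ω X, (∀ ξ : Ω, In N ξ ↔ ξ < Q.lv) ∧
    Q.lib = {o : Ob Ω X | In N o} ∧ ∀ D ∈ G, In N D → Q ∈ D := by
  filter_upwards [club_countable, clo0 (univ : Set (Ob Ω X)), clo_sub Ob.lib Ob.lib_ct,
    sk2 fun (D : Set (Ob Ω X)) (P Q : Ob Ω X) => Q ∈ D ∧ P.lv < Q.lv ∧ insert P P.lib ⊆ Q.lib,
    clo2 fun D D' : Set (Ob Ω X) => D ∩ D', clo1 (Ob.lv : Ob Ω X → Ω), club_ht (Ω := Ω),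
    clo1 fun β : Ω => {P : Ob Ω X | β < P.lv ∧ ∅ ⊆ P.lib},
    clo2 fun (β : Ω) (o : Ob Ω X) => {P : Ob Ω X | β < P.lv ∧ {o} ⊆ P.lib},
    clo0 (hG.ne _ hG.top).some] with N c1 c2 c3 c4 c5 c6 ⟨δ, c7⟩ c8 c9 c10
  obtain ⟨T, hT⟩ := ((countable_In (Set (Ob Ω X)) c1).mono (show {D | D ∈ G ∧ In N D} ⊆ _ from
    fun _ h => h.2)).exists_eq_range ⟨univ, hG.top, c2⟩
  have hT' := fun n => hT.ge (mem_range_self n)
  have hN : ∀ n, In N {P | ∀ i < n, P ∈ T i} := fun n => by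
    induction n with
    | zero => simpa using c2
    | succ n ih =>
      convert c5 _ _ ih (hT' n).2 using 1
      ext P
      exact Nat.forall_lt_succ_right
  obtain ⟨f, Q, a1, a2, a3, a4, -, a5⟩ := chain_lim (A := {P | In N P})
    (D := fun n _ => {P | ∀ i < n, P ∈ T i}) ⟨_, c10⟩ fun n P hP => c4 _ P (hN n) hP
      (let ⟨Q, _, h⟩ := hG.step (hG.lrg hG.top) (hG.fin (fun n => (hT' n).1) n) P; ⟨Q, h⟩)
  have key : ∀ D ∈ G, In N D → ∀ᶠ n in atTop, f n ∈ D := by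
    intro D h1 h2
    obtain ⟨i, rfl⟩ := hT.le ⟨h1, h2⟩
    refine (eventually_ge_atTop (i + 2)).mono fun n hn => ?_
    obtain ⟨m, rfl⟩ := Nat.exists_eq_add_one_of_ne_zero (show n ≠ 0 by omega)
    exact (a1 m).2 i (by omega)
  refine ⟨Q, fun ξ => ⟨fun h => ?_, fun h => ?_⟩, ?_, fun D h1 h2 => hG.inv D h1 (a5 D (key D h1 h2))⟩
  · obtain ⟨n, hn⟩ := (key _ (hG.cone ξ ∅ countable_empty) (c8 ξ h)).exists
    exact hn.1.trans (a2 n)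
  · obtain ⟨n, hn⟩ := (a4 ξ h).exists
    exact (c7 ξ).2 (hn.trans ((c7 _).1 (c6 _ (a1 n).1)))
  · refine a3.trans ((iUnion_subset fun n => c3 _ (a1 n).1).antisymm fun o ho => ?_)
    obtain ⟨n, hn⟩ := (key _ (hG.cone o.lv {o} (countable_singleton o)) (c9 _ o (c6 o ho) ho)).exists
    exact mem_iUnion.2 ⟨n, hn.2 rfl⟩

end Pool.Agent.Lib.MP_563af5_gt
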