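import Pool.Agent.Lib.MP_563af5_gt.Fusion

open Set Filter Topology TopologicalSpace

namespace Pool.Agent.Lib.MP_563af5_gt

variable {X M : Type} [TopologicalSpace X] [TopologicalSpace M] [CompactSpace X] [T2Space X]

lemma comp_net [MetrizableSpace M] [SecondCountableTopology M] {f : X → M} (hf : Continuous f)
    (x : X) {N : Set X} (hN : IsClosed N) (h : Disjoint (connectedComponentIn (f ⁻¹' {f x}) x) N) :
    ∃ B ∈ countableBasis M, f x ∈ B ∧ Disjoint (connectedComponentIn (f ⁻¹' B) x) N := by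
  let _ := metrizableSpaceMetric M
  let V : ℕ → Set X := fun n =>
    closure (connectedComponentIn (f ⁻¹' Metric.ball (f x) (1 / (n + 1))) x)
  have dir : Directed (· ⊇ ·) V := directed_of_isDirected_le fun m n hmn =>
    closure_mono (connectedComponentIn_mono _ (preimage_mono (Metric.ball_subset_ball
      (Nat.one_div_le_one_div hmn))))
  have key := fun U => exists_subset_nhds_of_isCompact' dir (fun _ => isClosed_closure.isCompact)
    (fun _ => isClosed_closure) (U := U)
  have pc : IsPreconnected (⋂ n, V n) := by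
    rw [isPreconnected_iff_subset_of_fully_disjoint_closed (isClosed_iInter fun _ => isClosed_closure)]
    intro u v hu hv h1 h2
    obtain ⟨U, U', o1, o2, s1, s2, d⟩ := normal_separation hu hv h2
    obtain ⟨n, hn⟩ := key (U ∪ U') fun y hy =>
      (o1.union o2).mem_nhds (union_subset_union s1 s2 (h1 hy))
    exact (isPreconnected_connectedComponentIn.closure.subset_or_subset o1 o2 d hn).imp
      (fun c y hy => (h1 hy).resolve_right fun e => disjoint_left.1 d (c (mem_iInter.1 hy n)) (s2 e))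
      fun c y hy => (h1 hy).resolve_left fun e => disjoint_left.1 d (s1 e) (c (mem_iInter.1 hy n))
  have sub : (⋂ n, V n) ⊆ connectedComponentIn (f ⁻¹' {f x}) x :=
    pc.subset_connectedComponentIn (mem_iInter.2 fun n => subset_closure
      (mem_connectedComponentIn (Metric.mem_ball_self Nat.one_div_pos_of_nat))) fun y hy =>
      dist_le_zero.1 (ge_of_tendsto' tendsto_one_div_add_atTop_nhds_zero_nat fun n =>
        closure_minimal ((connectedComponentIn_subset _ _).trans
          (preimage_mono Metric.ball_subset_closedBall)) (Metric.isClosed_closedBall.preimage hf)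
          (mem_iInter.1 hy n))
  obtain ⟨n, hn⟩ := key Nᶜ fun y hy => hN.isOpen_compl.mem_nhds (disjoint_left.1 h (sub hy))
  obtain ⟨B, b1, b2, b3⟩ := (isBasis_countableBasis M).exists_subset_of_mem_open
    (Metric.mem_ball_self (x := f x) (Nat.one_div_pos_of_nat (n := n))) Metric.isOpen_ball
  exact ⟨B, b1, b2, disjoint_left.2 fun y hy =>
    hn (subset_closure (connectedComponentIn_mono _ (preimage_mono b3) hy))⟩

omit [T2Space X] in
lemma metrizable_of_sep [PerfectlyNormalSpace X] {𝒪 : Set (Set X)} (hc : 𝒪.Countable)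
    (ho : ∀ O ∈ 𝒪, IsOpen O) (h : ∀ x y : X, x ≠ y → ∃ O ∈ 𝒪, x ∈ O ∧ y ∉ O) :
    MetrizableSpace X := by
  have := hc.to_subtype
  choose g hg _ using fun O : 𝒪 => perfectlyNormalSpace_iff_forall_isClosed_preimage_zero.1
    inferInstance _ (ho O O.2).isClosed_compl
  refine (Continuous.isClosedEmbedding (f := fun x (O : 𝒪) => g O x) (by fun_prop)
    fun x y e => by_contra fun c => ?_).isEmbedding.metrizableSpace
  obtain ⟨O, o1, o2, o3⟩ := h x y c
  exact (hg ⟨O, o1⟩).ge ((congrFun e ⟨O, o1⟩).trans ((hg ⟨O, o1⟩).le o3)) o2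

theorem main (soca : SOCA) [PerfectlyNormalSpace X] [LocallyConnectedSpace X] [MetrizableSpace M]
    [CompactSpace M] {f : X → M} (hf : Continuous f) (ht : CTight f) :
    {y | ¬ IsTotallyDisconnected (f ⁻¹' {y})}.Countable ∧
      ((∀ y, MetrizableSpace (f ⁻¹' {y})) → MetrizableSpace X) := by
  have := hl (X := X)
  let 𝒲 : Set (Set X) := ⋃ B ∈ countableBasis M, range (connectedComponentIn (f ⁻¹' B))
  have op : ∀ B ∈ countableBasis M, ∀ x, IsOpen (connectedComponentIn (f ⁻¹' B) x) :=
    fun B hB x => ((isOpen_of_mem_countableBasis hB).preimage hf).connectedComponentIn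
  have cW : 𝒲.Countable := (countable_countableBasis M).biUnion fun B hB => by
    obtain ⟨t, t1, t2⟩ := eq_open_union_countable _ (op B hB)
    refine ((t1.image (connectedComponentIn (f ⁻¹' B))).insert ∅).mono ?_
    rintro _ ⟨x, rfl⟩
    by_cases h : x ∈ f ⁻¹' B
    · obtain ⟨z, z1, z2⟩ := mem_iUnion₂.1 (t2.ge (mem_iUnion.2 ⟨x, mem_connectedComponentIn h⟩))
      exact Or.inr ⟨z, z1, connectedComponentIn_eq z2⟩
    · exact Or.inl (connectedComponentIn_eq_empty h)
  have net : ∀ x N, IsClosed N → Disjoint (connectedComponentIn (f ⁻¹' {f x}) x) N →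
      ∃ W ∈ 𝒲, connectedComponentIn (f ⁻¹' {f x}) x ⊆ W ∧ Disjoint W N := fun x N h1 h2 => by
    obtain ⟨B, b1, b2, b3⟩ := comp_net hf x h1 h2
    exact ⟨_, mem_biUnion b1 (mem_range_self x),
      connectedComponentIn_mono _ (preimage_mono (singleton_subset_iff.2 b2)), b3⟩
  have c0 : {y | ¬ IsTotallyDisconnected (f ⁻¹' {y})}.Countable := by
    have : ∀ y, ∃ C : Set X, ¬ IsTotallyDisconnected (f ⁻¹' {y}) → C.Nontrivial ∧
        ∃ x, f x = y ∧ C = connectedComponentIn (f ⁻¹' {f x}) x := fun y => by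
      by_cases h : IsTotallyDisconnected (f ⁻¹' {y})
      · exact ⟨∅, fun c => absurd h c⟩
      · simp only [IsTotallyDisconnected, not_forall, not_subsingleton_iff] at h
        obtain ⟨t, t1, t2, t3⟩ := h
        obtain ⟨x, hx⟩ := t3.nonempty
        obtain rfl : f x = y := t1 hx
        exact ⟨_, fun _ => ⟨t3.mono (t2.subset_connectedComponentIn hx t1), x, rfl, rfl⟩⟩
    choose C h using this
    have := cW.to_subtype
    refine fusion soca (W := fun W : 𝒲 => (W : Set X)) (C := C) (fun y hy N h1 h2 => ?_)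
      (fun y hy => ?_) hf (fun y hy => ?_) (fun y hy => (h y hy).1.nonempty) ht <;>
      obtain ⟨h0, x, rfl, e⟩ := h y hy
    · obtain ⟨W, w1, w2⟩ := net x N h1 (e ▸ h2)
      exact ⟨⟨W, w1⟩, e ▸ w2⟩
    · exact IsPreconnected.preperfect_of_nontrivial h0 (e ▸ isPreconnected_connectedComponentIn)
    · exact e ▸ connectedComponentIn_subset _ _
  refine ⟨c0, fun hm => ?_⟩
  have : ∀ y, ∃ 𝒪 : Set (Set X), 𝒪.Countable ∧ (∀ O ∈ 𝒪, IsOpen O) ∧
      ∀ p q, f p = y → f q = y → p ≠ q → ∃ O ∈ 𝒪, p ∈ O ∧ q ∉ O := fun y => by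
    have := hm y
    have := isCompact_iff_compactSpace.1 (isClosed_singleton (x := y).preimage hf).isCompact
    choose O o1 o2 using fun B : countableBasis (f ⁻¹' {y}) =>
      isOpen_induced_iff.1 (isOpen_of_mem_countableBasis B.2)
    refine ⟨range O, countable_range O, by rintro _ ⟨B, rfl⟩; exact o1 B, fun p q hp hq c => ?_⟩
    obtain ⟨B, b1, b2, b3⟩ := (isBasis_countableBasis (f ⁻¹' {y})).exists_subset_of_mem_open
      (a := ⟨p, hp⟩) (u := {⟨q, hq⟩}ᶜ) (fun e => c (congrArg Subtype.val e)) isOpen_compl_singleton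
    exact ⟨_, mem_range_self ⟨B, b1⟩, (o2 ⟨B, b1⟩).ge b2,
      fun e => b3 ((o2 ⟨B, b1⟩).le (show (⟨q, hq⟩ : f ⁻¹' {y}) ∈ _ from e)) rfl⟩
  choose 𝒪 o1 o2 o3 using this
  refine metrizable_of_sep (cW.union (c0.biUnion fun y _ => o1 y)) ?_ fun p q c => ?_
  · rintro O (h | h)
    · obtain ⟨B, b1, x, rfl⟩ := mem_iUnion₂.1 h
      exact op B b1 x
    · obtain ⟨y, -, h⟩ := mem_iUnion₂.1 h
      exact o2 y O h
  · by_cases h : q ∈ connectedComponentIn (f ⁻¹' {f p}) p
    · obtain ⟨O, a1, a2⟩ := o3 (f p) p q rfl (connectedComponentIn_subset (f ⁻¹' {f p}) p h) c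
      exact ⟨O, Or.inr (mem_biUnion (fun t => c (t _ (connectedComponentIn_subset _ _)
        isPreconnected_connectedComponentIn (mem_connectedComponentIn rfl) h)) a1), a2⟩
    · obtain ⟨W, w1, w2, w3⟩ := net p {q} isClosed_singleton (disjoint_singleton_right.2 h)
      exact ⟨W, Or.inl w1, w2 (mem_connectedComponentIn rfl), disjoint_singleton_right.1 w3⟩

end Pool.Agent.Lib.MP_563af5_gt
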