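import Pool.Agent.Lib.MP_563af5_gt.ArMain
import Pool.Agent.Lib.MP_563af5_gt.Main

namespace Pool.Agent.Lib.MP_563af5_gt

open Set Filter Topology TopologicalSpace

variable {X : Type} [TopologicalSpace X]

theorem combine {S : Set C(X, ℕ → ℝ)} (h : S.Countable) :
    ∃ G : C(X, ℕ → ℝ), ∀ x y, G x = G y ↔ ∀ f ∈ S, f x = f y := by
  obtain ⟨e, he⟩ := (h.insert 0).exists_eq_range (insert_nonempty _ _)
  refine ⟨⟨fun x n => e n.unpair.1 x n.unpair.2, by fun_prop⟩, fun x y => ⟨fun k f hf => ?_,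
    fun k => funext fun n => ?_⟩⟩
  · obtain ⟨i, rfl⟩ := he.le (Or.inr hf)
    exact funext fun j => by simpa using congrFun k (Nat.pair i j)
  · rcases he.ge (mem_range_self n.unpair.1) with h | h
    · simp [h]
    · exact congrFun (k _ h) _

theorem combine' {S : Set C(X, ℝ)} (h : S.Countable) :
    ∃ G : C(X, ℕ → ℝ), ∀ x y, G x = G y → ∀ f ∈ S, f x = f y := by
  obtain ⟨G, k⟩ := combine (h.image fun f => (⟨fun x _ => f x, by fun_prop⟩ : C(X, ℕ → ℝ)))
  exact ⟨G, fun x y e f hf => congrFun ((k x y).1 e _ ⟨f, hf, rfl⟩) 0⟩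

variable [CompactSpace X] [T2Space X]

omit [T2Space X] in
theorem refine_metr {Y : Type} [TopologicalSpace Y] [MetrizableSpace Y] (f : C(X, Y)) :
    ∃ G : C(X, ℕ → ℝ), ∀ x y, G x = G y → f x = f y := by
  have : CompactSpace (range f) := isCompact_iff_compactSpace.1 (isCompact_range f.continuous)
  obtain ⟨e, he⟩ := exists_isInducing_l_infty (range f)
  exact ⟨⟨fun x n => e ⟨f x, x, rfl⟩ n, continuous_pi fun n =>
    (continuous_eval_const n).comp (he.continuous.comp (f.continuous.subtype_mk _))⟩,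
    fun x y k => congrArg Subtype.val (he.injective (DFunLike.coe_injective k))⟩

theorem refine_comp [PerfectlyNormalSpace X] [LocallyConnectedSpace X] (f : C(X, ℕ → ℝ)) :
    ∃ G : C(X, ℕ → ℝ), ∀ x y, G x = G y → f x = f y →
      y ∈ connectedComponentIn (f ⁻¹' {f x}) x := by
  have := hl (X := X)
  have op : ∀ B ∈ countableBasis (ℕ → ℝ), ∀ x, IsOpen (connectedComponentIn (f ⁻¹' B) x) :=
    fun B hB x => ((isOpen_of_mem_countableBasis hB).preimage f.continuous).connectedComponentIn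
  have cW : (⋃ B ∈ countableBasis (ℕ → ℝ), range (connectedComponentIn (f ⁻¹' B))).Countable :=
    (countable_countableBasis _).biUnion fun B hB => by
      obtain ⟨t, t1, t2⟩ := eq_open_union_countable _ (op B hB)
      refine ((t1.image (connectedComponentIn (f ⁻¹' B))).insert ∅).mono ?_
      rintro _ ⟨x, rfl⟩
      by_cases h : x ∈ f ⁻¹' B
      · obtain ⟨z, z1, z2⟩ := mem_iUnion₂.1 (t2.ge (mem_iUnion.2 ⟨x, mem_connectedComponentIn h⟩))
        exact Or.inr ⟨z, z1, connectedComponentIn_eq z2⟩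
      · exact Or.inl (connectedComponentIn_eq_empty h)
  choose! h hh _ using fun (O : Set X) (k : IsOpen O) =>
    perfectlyNormalSpace_iff_forall_isClosed_preimage_zero.1 inferInstance _ k.isClosed_compl
  obtain ⟨G, hG⟩ := combine' (cW.image h)
  refine ⟨G, fun x y k _ => by_contra fun c => ?_⟩
  obtain ⟨B, b1, b2, b3⟩ := comp_net f.continuous x isClosed_singleton
    (disjoint_singleton_right.2 c)
  exact (hh _ (op B b1 x)).ge ((hG x y k _ ⟨_, mem_biUnion b1 (mem_range_self x), rfl⟩).trans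
    ((hh _ (op B b1 x)).le (disjoint_singleton_right.1 b3))) (mem_connectedComponentIn b2)

/-- One step of the construction of the coordinates. -/
def Nx (f G : C(X, ℕ → ℝ)) : Prop :=
  (∃ x y, f x = f y ∧ G x ≠ G y) ∧
  (∀ x y, G x = G y → y ∈ connectedComponentIn (f ⁻¹' {f x}) x) ∧
  ∃ (Y : Type) (t : X → Y), WTight t ∧ (∀ x y, G x = G y → t x = t y) ∧ ∀ x y, t x = t y → f x = f y

theorem exists_nx [PerfectlyNormalSpace X] [LocallyConnectedSpace X] (hd : Dissip X)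
    (hm : ¬ MetrizableSpace X) (f : C(X, ℕ → ℝ)) : ∃ G, Nx f G := by
  obtain ⟨x, y, h1, h2⟩ : ∃ x y, f x = f y ∧ x ≠ y := by
    by_contra h
    push Not at h
    exact hm (f.continuous.isClosedEmbedding h).isEmbedding.metrizableSpace
  obtain ⟨h, k1, k2, -⟩ := exists_continuous_zero_one_of_isClosed isClosed_singleton
    isClosed_singleton (disjoint_singleton.2 h2)
  obtain ⟨G1, a1⟩ := combine' (countable_singleton h)
  obtain ⟨G2, a2⟩ := refine_comp f
  obtain ⟨Y, _, _, t, a3, a4⟩ := hd _ f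
  obtain ⟨G3, a5⟩ := refine_metr t
  obtain ⟨G, hG⟩ := combine (toFinite {G1, G2, G3}).countable
  refine ⟨G, ⟨x, y, h1, fun e => ?_⟩, fun a b e => a2 a b ((hG a b).1 e _ (by simp))
    (a4 a b (a5 a b ((hG a b).1 e _ (by simp)))), Y, t, a3,
    fun a b e => a5 a b ((hG a b).1 e _ (by simp)), a4⟩
  have := a1 x y ((hG x y).1 e _ (by simp)) h rfl
  rw [k1 rfl, k2 rfl] at this
  exact zero_ne_one this

theorem preconn_iInter {V : ℕ → Set X} (h1 : Antitone V) (h2 : ∀ n, IsClosed (V n))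
    (h3 : ∀ n, ∃ C, IsPreconnected C ∧ V (n + 1) ⊆ C ∧ C ⊆ V n) : IsPreconnected (⋂ n, V n) := by
  rw [isPreconnected_iff_subset_of_fully_disjoint_closed (isClosed_iInter h2)]
  intro u v hu hv k1 k2
  obtain ⟨U, U', o1, o2, s1, s2, d⟩ := normal_separation hu hv k2
  obtain ⟨n, hn⟩ := exists_subset_nhds_of_isCompact' h1.directed_ge (fun n => (h2 n).isCompact) h2
    (U := U ∪ U') fun y hy => (o1.union o2).mem_nhds (union_subset_union s1 s2 (k1 hy))
  obtain ⟨C, c1, c2, c3⟩ := h3 n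
  exact (c1.subset_or_subset o1 o2 d (c3.trans hn)).imp
    (fun c y hy => (k1 hy).resolve_right fun e =>
      disjoint_left.1 d (c (c2 (mem_iInter.1 hy _))) (s2 e))
    fun c y hy => (k1 hy).resolve_left fun e =>
      disjoint_left.1 d (s1 e) (c (c2 (mem_iInter.1 hy _)))

variable {Ω : Type} [LinearOrder Ω] [Om Ω]

theorem exists_coords [PerfectlyNormalSpace X] [LocallyConnectedSpace X] (hd : Dissip X)
    (hm : ¬ MetrizableSpace X) : ∃ g : Ω → C(X, ℕ → ℝ),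
      (∀ α, ∃ x, ∃ y ∈ Fib g x α, g α y ≠ g α x) ∧
      (∀ α, ∃ β, α < β ∧ ∀ x, IsPreconnected (Fib g x β)) ∧
      ∀ α, ∃ (Y : Type) (t : X → Y), WTight t ∧ (∀ x y, g α x = g α y → t x = t y) ∧
        ∀ x y, t x = t y → y ∈ Fib g x α := by
  choose nx hnx using exists_nx hd hm
  choose! cb hcb using fun (S : Set C(X, ℕ → ℝ)) (h : S.Countable) => combine h
  let g : Ω → C(X, ℕ → ℝ) := (wellFounded_lt (α := Ω)).fix fun α r =>
    nx (cb (range fun ξ : Iio α => r ξ ξ.2))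
  have hg : ∀ α, ∃ f : C(X, ℕ → ℝ), Nx f (g α) ∧ ∀ x y, f y = f x ↔ y ∈ Fib g x α := fun α => by
    have := (Om.ct α).to_subtype
    have e : g α = nx (cb (range fun ξ : Iio α => g ξ)) := WellFounded.fix_eq _ _ α
    refine ⟨_, e ▸ hnx _, fun x y => ?_⟩
    rw [hcb _ (countable_range _), forall_mem_range, Subtype.forall]
    rfl
  refine ⟨g, fun α => ?_, fun α => ?_, fun α => ?_⟩
  · obtain ⟨f, ⟨⟨x, y, h1, h2⟩, -⟩, h3⟩ := hg α
    exact ⟨y, x, (h3 _ _).1 h1, h2⟩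
  · choose s hs using fun a : Ω => exists_gt a
    have hm : StrictMono fun n => s^[n] α := strictMono_nat_of_lt_succ fun n => by
      simpa only [Function.iterate_succ_apply'] using hs _
    obtain ⟨β, h1, h2⟩ := om_sup _ hm
    refine ⟨β, h1 0, fun x => ?_⟩
    have : Fib g x β = ⋂ n, Fib g x (s^[n] α) :=
      (subset_iInter fun n => Fib.anti _ (h1 n).le).antisymm fun y hy ξ hξ =>
        let ⟨n, hn⟩ := h2 ξ hξ; mem_iInter.1 hy n ξ hn
    rw [this]
    refine preconn_iInter (fun a b k => Fib.anti _ (hm.monotone k)) (fun n => Fib.closed _ _)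
      fun n => ?_
    obtain ⟨f, ⟨-, a1, -⟩, a2⟩ := hg (s^[n] α)
    exact ⟨_, isPreconnected_connectedComponentIn,
      fun y hy => a1 x y (hy _ (hm (Nat.lt_succ_self n))).symm,
      fun y hy => (a2 x y).1 (connectedComponentIn_subset (f ⁻¹' {f x}) x hy)⟩
  · obtain ⟨f, ⟨-, -, Y, t, a1, a2, a3⟩, a4⟩ := hg α
    exact ⟨Y, t, a1, a2, fun x y k => (a4 x y).1 (a3 x y k).symm⟩

omit [CompactSpace X] [T2Space X] [Om Ω] in
theorem Kill.lift {Y : Type} [TopologicalSpace Y] {π : X → Y} (h1 : Continuous π)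
    (h2 : Function.Surjective π) (h : Kill Ω Y) : Kill Ω X := by
  obtain ⟨P, _, k1, k2, a, k3, k4, k5⟩ := h
  refine ⟨P, _, k1, k2, fun p => {s | ∃ U, (s.1, π s.2.1, U) ∈ a p ∧ s.2.2 = π ⁻¹' U},
    fun p q k s ⟨U, h, h'⟩ => ⟨U, k3 p q k h, h'⟩, ?_, fun β p => ?_⟩
  · rintro p s ⟨U, a1, a2⟩
    obtain ⟨b1, b2, b3⟩ := k4 p _ a1
    exact ⟨a2 ▸ b1.preimage h1, a2 ▸ b2, fun t ⟨V, c1, _⟩ k => a2 ▸ b3 _ c1 k⟩
  · obtain ⟨q, ⟨⟨α, y, U⟩, a1, a2⟩, a3⟩ := k5 β p
    obtain ⟨x, rfl⟩ := h2 y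
    exact ⟨q, ⟨(α, x, π ⁻¹' U), ⟨U, a1, rfl⟩, a2⟩, a3⟩

omit [CompactSpace X] [T2Space X] in
theorem WTight.ct {Y : Type} {t : X → Y} (ht : WTight t) {S : Set C(X, ℝ)} (hS : S.Countable) :
    {y | ∃ C, IsPreconnected C ∧ C ⊆ t ⁻¹' {y} ∧ ∃ h ∈ S, ∃ a ∈ C, ∃ b ∈ C, h a ≠ h b}.Countable := by
  refine (hS.biUnion fun h _ => countable_iUnion fun p : ℚ × ℚ =>
    ht ⟨fun x => (h x - p.1) / (p.2 - p.1), by fun_prop⟩).mono ?_
  rintro y ⟨C, h1, h2, h, h3, a, h4, b, h5, h6⟩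
  wlog k : h a < h b generalizing a b
  · exact this b h5 a h4 h6.symm (lt_of_le_of_ne (not_lt.1 k) h6.symm)
  obtain ⟨p, p1, p2⟩ := exists_rat_btwn k
  obtain ⟨q, q1, q2⟩ := exists_rat_btwn p2
  refine mem_biUnion h3 (mem_iUnion.2 ⟨(p, q), fun r hr => ?_⟩)
  obtain ⟨x, x1, x2⟩ := (h1.image h h.continuous.continuousOn).Icc_subset ⟨a, h4, rfl⟩ ⟨b, h5, rfl⟩
    (show p + r * (q - p) ∈ Icc (h a) (h b) from ⟨by nlinarith [hr.1], by nlinarith [hr.2]⟩)
  refine ⟨x, h2 x1, ?_⟩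
  have : (q : ℝ) - p ≠ 0 := by linarith
  simp only [ContinuousMap.coe_mk, x2]
  field_simp
  ring

theorem kill_lc [PerfectlyNormalSpace X] [LocallyConnectedSpace X] (hd : Dissip X)
    (hm : ¬ MetrizableSpace X) : Kill Ω X := by
  obtain ⟨g, h1, h2, h3⟩ := exists_coords (Ω := Ω) hd hm
  let Φ : X → Ω → ℕ → ℝ := fun x ξ => g ξ x
  have hΦ : Continuous Φ := by fun_prop
  have : CompactSpace (range Φ) := isCompact_iff_compactSpace.1 (isCompact_range hΦ)
  let π : X → range Φ := rangeFactorization Φ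
  have hπ : Continuous π := hΦ.subtype_mk _
  have sπ : Function.Surjective π := rangeFactorization_surjective
  let G : Ω → C(range Φ, ℕ → ℝ) := fun ξ => 
    ⟨fun y => y.1 ξ, (continuous_apply ξ).comp continuous_subtype_val⟩
  have e1 : ∀ x α, π ⁻¹' Fib G (π x) α = Fib g x α := fun _ _ => rfl
  have e2 : ∀ x α, Fib G (π x) α = π '' Fib g x α := fun x α => by
    rw [← e1, image_preimage_eq _ sπ]
  have hr : ∀ y : range Φ, ∃ ρ, Fib G y ρ ⊆ {y} := fun y => by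
    obtain ⟨x, rfl⟩ := sπ y
    obtain ⟨U, u1, u2⟩ := isGδ_iff_eq_iInter_nat.1 ((isClosed_singleton (x := π x)).preimage hπ).isGδ
    choose ρ hρ using fun n => exists_subset_nhds_of_isCompact'
      (directed_of_isDirected_le fun a b h => Fib.anti (g := g) x h)
      (fun a => (Fib.closed x a).isCompact) (Fib.closed x) (U := U n) fun y hy =>
        (u1 n).mem_nhds (mem_iInter.1 (u2.le (Subtype.ext (funext fun ξ =>
          let ⟨b, hb⟩ := exists_gt ξ; mem_iInter.1 hy b ξ hb))) n)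
    obtain ⟨b, hb⟩ := om_bdd (countable_range ρ)
    exact ⟨b, e2 x b ▸ image_subset_iff.2 fun y hy => u2.ge (mem_iInter.2 fun n =>
      hρ n (Fib.anti x (hb _ ⟨n, rfl⟩).le hy))⟩
  refine Kill.lift hπ sπ ?_
  by_cases hA : ∃ β, (∀ x, IsPreconnected (Fib g x β)) ∧ ∀ γ, ∃ y, (Fib G y β).Nontrivial ∧
      (β ≤ γ → Fib G y β = Fib G y γ)
  · obtain ⟨β, a1, a2⟩ := hA
    choose z a3 a4 using a2
    refine kill_late hr (fun γ => ?_) a4
    have : (Fib G (z γ) β).Infinite := by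
      refine IsPreconnected.infinite_of_nontrivial ?_ (a3 γ)
      obtain ⟨x, hx⟩ := sπ (z γ)
      rw [← hx, e2]
      exact (a1 x).image _ hπ.continuousOn
    rcases le_total β γ with k | k
    exacts [a4 γ k ▸ this, this.mono (Fib.anti _ k)]
  push Not at hA
  choose z y z1 z2 using h1
  have hn : ∀ γ, (Fib G (π (z γ)) γ).Nontrivial := fun γ =>
    ⟨π (y γ), z1 γ, _, Fib.self _ _, fun e => z2 γ (congrFun (congrArg Subtype.val e) γ)⟩
  refine kill_aron hr hn fun α => ?_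
  obtain ⟨β, b1, b2⟩ := h2 α
  obtain ⟨η, b3⟩ := hA β b2
  obtain ⟨Y, t, t1, t2, t3⟩ := h3 α
  have := t1.ct ((Om.ct η).biUnion fun ξ _ => countable_range fun n =>
    (⟨fun x => g ξ x n, by fun_prop⟩ : C(X, ℝ)))
  refine (((Om.ct β).image fun γ => Fib G (π (z γ)) α).union
    (this.image fun v => ⋃ x ∈ t ⁻¹' {v}, Fib G (π x) α)).mono ?_
  rintro _ ⟨γ, rfl⟩
  refine (lt_or_ge γ β).imp (fun k => ⟨γ, k, rfl⟩) fun k => ⟨t (z γ), ⟨_, b2 (z γ),
    fun x hx => t2 _ _ (hx α b1), ?_⟩, (iUnion₂_subset fun x hx =>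
      (Fib.eq (g := G) (x := π (z γ)) (t3 _ _ (Eq.symm hx)) le_rfl).le).antisymm
      (subset_biUnion_of_mem (u := fun x => Fib G (π x) α) rfl)⟩
  obtain ⟨c1, c2⟩ := b3 _ ((hn γ).mono (Fib.anti _ k))
  obtain ⟨u, u1, u2⟩ := not_subset.1 fun h => c2 (h.antisymm (Fib.anti _ c1))
  obtain ⟨x, rfl⟩ := sπ u
  simp only [Fib, mem_ofPred_eq, not_forall] at u2
  obtain ⟨ξ, u3, u4⟩ := u2
  obtain ⟨n, u5⟩ := Function.ne_iff.1 u4
  exact ⟨_, mem_biUnion u3 (mem_range_self n), x, u1, _, Fib.self _ _, u5⟩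

end Pool.Agent.Lib.MP_563af5_gt
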