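import Pool.Agent.Lib.MP_563af5_gt.ArGen

namespace Pool.Agent.Lib.MP_563af5_gt

open Set Filter Topology Pool.Agent.Lib.MP_fecf72_lc

theorem exists_hull (F : Wd → Wd → ℕ → Wd) {s : Set Wd} (h : s.Countable) :
    ∃ N : Set Wd, N.Countable ∧ s ⊆ N ∧ Clsd F N := by
  let t : ℕ → Set Wd := fun n => Nat.rec s (fun _ t => t ∪ ⋃ a ∈ t, ⋃ b ∈ t, range (F a b)) n
  have hs : ∀ n, (t n).Countable := by
    intro n
    induction n with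
    | zero => exact h
    | succ n ih => exact ih.union (ih.biUnion fun a _ => ih.biUnion fun b _ => countable_range _)
  have hm : Monotone t := monotone_nat_of_le_succ fun n => subset_union_left
  refine ⟨⋃ n, t n, countable_iUnion hs, subset_iUnion t 0, fun a ha b hb n => ?_⟩
  obtain ⟨i, hi⟩ := mem_iUnion.1 ha
  obtain ⟨j, hj⟩ := mem_iUnion.1 hb
  refine mem_iUnion.2 ⟨max i j + 1, Or.inr ?_⟩
  simp only [mem_iUnion]
  exact ⟨a, hm (le_max_left _ _) hi, b, hm (le_max_right _ _) hj, n, rfl⟩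

theorem club_proj {A : Type} (ι : A → Wd) (hι : Function.Injective ι) {p : Set Wd → Prop}
    (h : ∀ᶠ N in Club, p N) : ∃ C : Set (Set A), IsClub C ∧ ∀ M ∈ C, ∃ N, p N ∧ ι ⁻¹' N = M := by
  obtain ⟨F, hF⟩ := h
  let a0 : Wd := ⟨PUnit, ⟨⟩⟩
  let cl : Set A → Set Wd := fun s => ⋂₀ {N | insert a0 (ι '' s) ⊆ N ∧ Clsd F N}
  have h1 : ∀ s, insert a0 (ι '' s) ⊆ cl s := fun s => subset_sInter fun N h => h.1
  have h2 : ∀ s, Clsd F (cl s) := fun s a ha b hb n N h => h.2 a (ha N h) b (hb N h) n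
  have h3 : ∀ s N, insert a0 (ι '' s) ⊆ N → Clsd F N → cl s ⊆ N :=
    fun s N k k' => sInter_subset_of_mem ⟨k, k'⟩
  have h4 : ∀ s, s.Countable → (cl s).Countable := fun s k =>
    let ⟨N, a1, a2, a3⟩ := exists_hull F ((k.image ι).insert a0); a1.mono (h3 s N a2 a3)
  have h5 : Monotone cl := fun s t k =>
    h3 _ _ ((insert_subset_insert (image_mono k)).trans (h1 t)) (h2 t)
  refine ⟨{M | M.Countable ∧ ι ⁻¹' cl M ⊆ M}, ⟨fun M h => h.1, fun s hs => ⟨ι ⁻¹' cl s,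
    ⟨(h4 s hs).preimage hι, preimage_mono (h3 _ _ (insert_subset (h1 s (mem_insert _ _))
      (image_preimage_subset _ _)) (h2 s))⟩, fun a ha => h1 s (Or.inr ⟨a, ha, rfl⟩)⟩,
    fun f hf k => ⟨countable_iUnion fun n => (k n).1, fun a ha => ?_⟩⟩,
    fun M h => ⟨cl M, hF _ (h4 M h.1) ⟨a0, h1 M (mem_insert _ _)⟩ (h2 M),
      h.2.antisymm fun a ha => h1 M (Or.inr ⟨a, ha, rfl⟩)⟩⟩
  obtain ⟨n, hn⟩ := mem_iUnion.1 (h3 _ (⋃ n, cl (f n)) (insert_subset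
    (mem_iUnion.2 ⟨0, h1 _ (mem_insert _ _)⟩) (by
      rintro _ ⟨b, hb, rfl⟩
      obtain ⟨n, hn⟩ := mem_iUnion.1 hb
      exact mem_iUnion.2 ⟨n, h1 _ (Or.inr ⟨b, hn, rfl⟩)⟩)) (fun a ha b hb n => by
      obtain ⟨i, hi⟩ := mem_iUnion.1 ha
      obtain ⟨j, hj⟩ := mem_iUnion.1 hb
      exact mem_iUnion.2 ⟨max i j, h2 _ a (h5 (hf (le_max_left _ _)) hi) b
        (h5 (hf (le_max_right _ _)) hj) n⟩) ha)
  exact mem_iUnion.2 ⟨n, (k n).2 hn⟩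

/-- Properness in terms of hulls. -/
def HProper (P : Type) [Preorder P] : Prop :=
  ∀ᶠ N in Club, ∀ p : P, In N p → ∃ q ≤ p, ∀ D : Set P, In N D → IsDn D → ∀ r ≤ q,
    ∃ d ∈ D, In N d ∧ ∃ s, s ≤ r ∧ s ≤ d

theorem HProper.proper {P : Type} [Preorder P] (h : HProper P) : Proper P := by
  obtain ⟨C, h1, h2⟩ := club_proj (A := P ⊕ Set P) (Sum.elim (srt0 P).emb (srt0 (Set P)).emb) (by
    refine (srt0 P).inj.sumElim (srt0 (Set P)).inj fun a b k => ?_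
    have e : ULift.{2} P = ULift.{2} (Set P) := congrArg Sigma.fst k
    have := congrArg Cardinal.mk e
    simp only [Cardinal.mk_uLift, Cardinal.lift_inj, Cardinal.mk_set] at this
    exact (Cardinal.cantor _).ne this) h
  refine ⟨C, h1, fun M hM => ?_⟩
  obtain ⟨N, h3, rfl⟩ := h2 M hM
  exact h3

theorem HProper.cone {P : Type} [Preorder P] (h : HProper P) (p0 : P) : HProper (Iic p0) := by
  classical
  filter_upwards [h, clo1 (Subtype.val : Iic p0 → P),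
    clo1 fun p : P => if h : p ≤ p0 then (⟨p, h⟩ : Iic p0) else ⟨p0, le_rfl⟩,
    clo1 fun D : Set (Iic p0) => Subtype.val '' D ∪ {p | ∀ r ≤ p, ¬ r ≤ p0}]
    with N h1 h2 h3 h4 p hp
  obtain ⟨q, a1, a2⟩ := h1 p (h2 p hp)
  refine ⟨⟨q, a1.trans p.2⟩, a1, fun D hD dD r hr => ?_⟩
  obtain ⟨d, b1 | b1, b2, s, b3, b4⟩ := a2 _ (h4 D hD) (fun a => by
    by_cases k : ∃ r ≤ a, r ≤ p0
    · obtain ⟨r, k1, k2⟩ := k
      obtain ⟨d, k3, k4⟩ := dD ⟨r, k2⟩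
      exact ⟨d, Or.inl ⟨d, k3, rfl⟩, le_trans k4 k1⟩
    · exact ⟨a, Or.inr fun r k1 k2 => k ⟨r, k1, k2⟩, le_rfl⟩) r hr
  · obtain ⟨d, b1, rfl⟩ := b1
    have := h3 _ b2
    rw [dif_pos (show d.1 ≤ p0 from d.2)] at this
    exact ⟨d, b1, this, ⟨s, b3.trans r.2⟩, b3, b4⟩
  · exact (b1 s b4 (b3.trans r.2)).elim

/-- Some proper poset adds an uncountable right-separated sequence in `X`. -/
def Kill (Ω X : Type) [Preorder Ω] [TopologicalSpace X] : Prop :=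
  ∃ (P : Type) (_ : Preorder P), Nonempty P ∧ Proper P ∧ ∃ a : P → Set (Ω × X × Set X),
    (∀ p q, q ≤ p → a p ⊆ a q) ∧
    (∀ p, ∀ s ∈ a p, IsOpen s.2.2 ∧ s.2.1 ∈ s.2.2 ∧ ∀ t ∈ a p, s.1 < t.1 → t.2.1 ∉ s.2.2) ∧
    ∀ β, IsDn {p | ∃ s ∈ a p, β ≤ s.1}

variable {Ω X R : Type} [LinearOrder Ω] [TopologicalSpace X] [TopologicalSpace R]
  {g : Ω → C(X, R)} {z : Ω → X} {α0 : Ω} [Om Ω] [CompactSpace X] [T2Space X] [T2Space R]
  [SecondCountableTopology R]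

theorem kill_main (hr : ∀ x : X, ∃ ρ, Fib g x ρ ⊆ {x}) (hc : ∀ α, α0 ≤ α →
      ((fun γ => Fib g (z γ) α) '' {γ | Fib g (z γ) α ≠ Fib g (z γ) γ}).Countable)
    (h3 : ∀ δ w, Bas g z δ w → ∃ γ, δ ≤ γ ∧ ∃ x ∈ Fib g (z γ) γ, x ≠ (w γ).1 ∧ x ≠ (w γ).2) :
    Kill Ω X := by
  obtain ⟨B, hB⟩ := exists_tubes g
  obtain ⟨G, hG⟩ := exists_maxG (z := z) hr hB
  have hp : HProper (Cond g z G α0) := by
    filter_upwards [hG.gen hB hc] with N ⟨M, _, _, h1, h2⟩ p hp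
    obtain ⟨q, h3, h4⟩ := h1 p hp
    exact ⟨q, h3, fun D k1 k2 r hr => h2 r (hr.1 h4) D k1 k2⟩
  obtain ⟨p0, h⟩ : ∃ p0 : Cond g z G α0, ∀ β, ∀ p ≤ p0, ∃ q ≤ p, ∃ a ∈ q.els, β ≤ a.1 := by
    by_contra hh
    push Not at hh
    obtain ⟨N, ⟨M, h1, h2, -, h4⟩, h5, h6⟩ := ((hG.gen hB hc).and
      ((clo0 {p : Cond g z G α0 | ∃ β, ∀ q ≤ p, ∀ a ∈ q.els, a.1 < β}).and
        (sk1 fun (p : Cond g z G α0) β => ∀ q ≤ p, ∀ a ∈ q.els, a.1 < β))).exists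
    obtain ⟨γ, hγ, x, x1, x2, x3⟩ := h3 _ _ h2.1
    obtain ⟨F, f1, f2, f3⟩ := exists_mem_nhds_isClosed_subset
      (inter_mem (compl_singleton_mem_nhds x2) (compl_singleton_mem_nhds x3))
    obtain ⟨d, d1, d2, s, d3, d4⟩ := h4 ⟨{M}, {(γ, F)}, finite_singleton _, finite_singleton _,
      forall_eq.2 h2, forall_eq.2 (forall_eq.2 ⟨fun k => absurd k (lt_irrefl _), fun _ => rfl⟩),
      forall_eq.2 (forall_eq.2 fun k => absurd k hγ.not_gt),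
      forall_eq.2 ⟨f2, x, x1, mem_interior_iff_mem_nhds.2 f1⟩,
      forall_eq.2 (forall_eq.2 fun k => absurd k (lt_irrefl _)),
      forall_eq.2 (forall_eq.2 (forall_eq.2 fun _ _ =>
        ⟨fun k => (f3 k).1 rfl, fun k => (f3 k).2 rfl⟩))⟩ rfl _ h5 fun p =>
      let ⟨β, q, k1, k2⟩ := hh p; ⟨q, ⟨β, k2⟩, k1⟩
    obtain ⟨β, b1, b2⟩ := h6 d d2 d1
    exact ((b2 s d4 _ (d3.2 rfl)).trans ((h1 β).1 b1)).not_ge hγ
  refine ⟨Iic p0, inferInstance, ⟨⟨p0, le_refl p0⟩⟩, (hp.cone p0).proper,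
    fun p => {s | ∃ a ∈ p.1.els, s.1 = a.1 ∧ s.2.1 ∈ Fib g (z a.1) a.1 ∧ s.2.1 ∈ s.2.2 ∧
      s.2.2 = interior a.2}, fun p q k s ⟨a, h1, h2⟩ => ⟨a, k.2 h1, h2⟩, ?_, fun β p => ?_⟩
  · rintro p s ⟨a, a1, a2, -, a4, a5⟩
    exact ⟨a5 ▸ isOpen_interior, a4, fun t ⟨b, b1, b2, b3, _⟩ k k' => disjoint_left.1
      (p.1.c5 a a1 b b1 (a2 ▸ b2 ▸ k)) b3 (interior_subset (a5 ▸ k'))⟩
  · obtain ⟨q, h1, a, h2, h3⟩ := h β p p.2
    obtain ⟨x, x1, x2⟩ := (q.c4 a h2).2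
    exact ⟨⟨q, h1.trans p.2⟩, ⟨(a.1, x, interior a.2), ⟨a, h2, rfl, x1, x2, rfl⟩, h3⟩, h1⟩

/-- The Aronszajn case. -/
theorem kill_aron (hr : ∀ x : X, ∃ ρ, Fib g x ρ ⊆ {x}) (hn : ∀ γ, (Fib g (z γ) γ).Nontrivial)
    (hc : ∀ α, (range fun γ => Fib g (z γ) α).Countable) : Kill Ω X := by
  refine kill_main (z := z) (α0 := Classical.arbitrary Ω) hr
    (fun α _ => (hc α).mono (image_subset_range _ _)) fun δ w hw => ?_
  choose r hr using hr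
  have hw' := hw.ct (S := univ) ((hc δ).mono (image_subset_range _ _))
  obtain ⟨γ, hγ⟩ := om_bdd (((hw'.image fun w => r w.1).union (hw'.image fun w => r w.2)).insert δ)
  have key : ∀ x, r x < γ → z γ ≠ x := fun x h e =>
    (hn γ).not_subsingleton (subsingleton_singleton.anti
      (e ▸ (Fib.anti x h.le).trans (hr x) : Fib g (z γ) γ ⊆ {x}))
  exact ⟨γ, (hγ _ (Or.inl rfl)).le, _, Fib.self _ _,
    key _ (hγ _ (Or.inr (Or.inl ⟨_, ⟨γ, trivial, rfl⟩, rfl⟩))),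
    key _ (hγ _ (Or.inr (Or.inr ⟨_, ⟨γ, trivial, rfl⟩, rfl⟩)))⟩

/-- The case of infinite fibres at one level which split arbitrarily late. -/
theorem kill_late (hr : ∀ x : X, ∃ ρ, Fib g x ρ ⊆ {x}) (hn : ∀ γ, (Fib g (z γ) γ).Infinite)
    (hc : ∀ γ, α0 ≤ γ → Fib g (z γ) α0 = Fib g (z γ) γ) : Kill Ω X := by
  refine kill_main (z := z) (α0 := α0) hr (fun α h => ((Om.ct α).image _).mono
    (image_mono fun γ k => lt_of_not_ge fun k' => k ?_)) fun δ w _ => ?_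
  · exact ((Fib.anti _ h).trans (hc γ (h.trans k')).le).antisymm (Fib.anti _ k')
  · obtain ⟨x, h1, h2⟩ := (hn δ).exists_notMem_finite (toFinite {(w δ).1, (w δ).2})
    exact ⟨δ, le_rfl, x, h1, fun k => h2 (Or.inl k), fun k => h2 (Or.inr k)⟩

end Pool.Agent.Lib.MP_563af5_gt
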