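import Pool.Agent.Lib.MP_563af5_gt.ArInv

namespace Pool.Agent.Lib.MP_563af5_gt

open Set Filter Topology Pool.Agent.Lib.MP_fecf72_lc

/-- Side conditions: a small point with promises, earlier working parts and earlier side
conditions. -/
inductive BP (Ω X : Type) : Type
  | mk : Ob Ω X → {s : Set (Set (Ob Ω X)) // s.Countable} → {s : Set (Ω × Set X) // s.Countable} →
      (s : Set ℕ) → (s → BP Ω X) → BP Ω X

variable {Ω : Type} {X : Type}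

/-- The small point. -/
def BP.sm : BP Ω X → Ob Ω X
  | .mk o _ _ _ _ => o

/-- The promises. -/
def BP.pr : BP Ω X → {s : Set (Set (Ob Ω X)) // s.Countable}
  | .mk _ a _ _ _ => a

/-- The known working parts. -/
def BP.be : BP Ω X → {s : Set (Ω × Set X) // s.Countable}
  | .mk _ _ b _ _ => b

/-- The known side conditions. -/
def BP.bl : BP Ω X → Set (BP Ω X)
  | .mk _ _ _ _ l => range l

theorem BP.bl_ct : ∀ P : BP Ω X, P.bl.Countable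
  | .mk _ _ _ _ l => countable_range l

theorem exists_bp (o : Ob Ω X) {a : Set (Set (Ob Ω X))} {b : Set (Ω × Set X)} {L : Set (BP Ω X)}
    (ha : a.Countable) (hb : b.Countable) (h : L.Countable) :
    ∃ P : BP Ω X, P.sm = o ∧ P.pr.1 = a ∧ P.be.1 = b ∧ P.bl = L :=
  let ⟨s, l, k⟩ := exists_idx h; ⟨.mk o ⟨a, ha⟩ ⟨b, hb⟩ s l, rfl, rfl, rfl, k⟩

/-- `Q` knows `P`. -/
def Bel (P Q : BP Ω X) : Prop :=
  P.sm ∈ Q.sm.lib ∧ P.sm.lib ⊆ Q.sm.lib ∧ P ∈ Q.bl ∧ P.bl ⊆ Q.bl ∧ P.pr.1 ⊆ Q.pr.1 ∧ P.be.1 ⊆ Q.be.1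

theorem Bel.trans {P Q R : BP Ω X} (h : Bel P Q) (k : Bel Q R) : Bel P R :=
  ⟨k.2.1 h.1, h.2.1.trans k.2.1, k.2.2.2.1 h.2.2.1, h.2.2.2.1.trans k.2.2.2.1,
    h.2.2.2.2.1.trans k.2.2.2.2.1, h.2.2.2.2.2.trans k.2.2.2.2.2⟩

/-- Both sections of `P` at `γ` avoid `F`. -/
def Av (P : BP Ω X) (γ : Ω) (F : Set X) : Prop := (P.sm.wit γ).1 ∉ F ∧ (P.sm.wit γ).2 ∉ F

variable [LinearOrder Ω] [TopologicalSpace X] {R : Type} [TopologicalSpace R] (g : Ω → C(X, R))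
  (z : Ω → X) (G : Set (Set (Ob Ω X))) (α0 : Ω)

/-- Forcing conditions. -/
structure Cond : Type where
  pts : Set (BP Ω X)
  els : Set (Ω × Set X)
  f1 : pts.Finite
  f2 : els.Finite
  c1 : ∀ P ∈ pts, Bas g z P.sm.lv P.sm.wit ∧ (∀ D ∈ P.pr.1, D ∈ G ∧ P.sm ∈ D) ∧ α0 ≤ P.sm.lv
  c2 : ∀ P ∈ pts, ∀ Q ∈ pts, (P.sm.lv < Q.sm.lv → Bel P Q) ∧ (P.sm.lv = Q.sm.lv → P = Q)
  c3 : ∀ a ∈ els, ∀ P ∈ pts, a.1 < P.sm.lv → a ∈ P.be.1
  c4 : ∀ a ∈ els, IsClosed a.2 ∧ ∃ x ∈ Fib g (z a.1) a.1, x ∈ interior a.2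
  c5 : ∀ a ∈ els, ∀ b ∈ els, a.1 < b.1 → Disjoint (Fib g (z b.1) b.1) a.2
  c6 : ∀ P ∈ pts, ∀ a ∈ els, ∀ b ∈ els, P.sm.lv ≤ a.1 → P.sm.lv ≤ b.1 → Av P a.1 b.2

instance : Preorder (Cond g z G α0) where
  le p q := q.pts ⊆ p.pts ∧ q.els ⊆ p.els
  le_refl _ := ⟨subset_rfl, subset_rfl⟩
  le_trans _ _ _ h k := ⟨k.1.trans h.1, k.2.trans h.2⟩

variable {g z G α0}

theorem amalg {q r : Cond g z G α0} {M : BP Ω X} (hM : M ∈ q.pts)
    (h1 : ∀ P ∈ r.pts, P.sm.lv < M.sm.lv ∧ Bel P M) (h2 : ∀ a ∈ r.els, a.1 < M.sm.lv ∧ a ∈ M.be.1)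
    (h3 : ∀ P ∈ q.pts, P.sm.lv < M.sm.lv → P ∈ r.pts) (h4 : ∀ a ∈ q.els, a.1 < M.sm.lv → a ∈ r.els)
    (h5 : ∀ a ∈ r.els, ∀ b ∈ q.els, M.sm.lv ≤ b.1 → Disjoint (Fib g (z b.1) b.1) a.2)
    (h6 : ∀ P ∈ r.pts, ∀ a ∈ r.els ∪ q.els, ∀ b ∈ r.els ∪ q.els, P.sm.lv ≤ a.1 → P.sm.lv ≤ b.1 →
      Av P a.1 b.2) : ∃ s, s ≤ q ∧ s ≤ r := by
  have u1 : ∀ P ∈ r.pts ∪ q.pts, P ∈ r.pts ∨ P ∈ q.pts ∧ M.sm.lv ≤ P.sm.lv := fun P h =>
    h.elim Or.inl fun h => (lt_or_ge _ _).imp (h3 P h) fun k => ⟨h, k⟩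
  have u2 : ∀ a ∈ r.els ∪ q.els, a ∈ r.els ∨ a ∈ q.els ∧ M.sm.lv ≤ a.1 := fun a h =>
    h.elim Or.inl fun h => (lt_or_ge _ _).imp (h4 a h) fun k => ⟨h, k⟩
  refine ⟨⟨r.pts ∪ q.pts, r.els ∪ q.els, r.f1.union q.f1, r.f2.union q.f2,
    fun P h => h.elim (r.c1 P) (q.c1 P), fun P hP Q hQ => ?_, fun a ha P hP k => ?_,
    fun a h => h.elim (r.c4 a) (q.c4 a), fun a ha b hb k => ?_, fun P hP a ha b hb k k' => ?_⟩,
    ⟨subset_union_right, subset_union_right⟩, subset_union_left, subset_union_left⟩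
  · rcases u1 P hP with a1 | ⟨a1, a2⟩ <;> rcases u1 Q hQ with b1 | ⟨b1, b2⟩
    · exact r.c2 P a1 Q b1
    · refine ⟨fun _ => ?_, fun k => absurd k ((h1 P a1).1.trans_le b2).ne⟩
      rcases b2.eq_or_lt with k | k
      · exact (q.c2 M hM Q b1).2 k ▸ (h1 P a1).2
      · exact (h1 P a1).2.trans ((q.c2 M hM Q b1).1 k)
    · have := (h1 Q b1).1.trans_le a2
      exact ⟨fun k => absurd k this.not_gt, fun k => absurd k this.ne'⟩
    · exact q.c2 P a1 Q b1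
  · rcases u2 a ha with a1 | ⟨a1, a2⟩ <;> rcases u1 P hP with b1 | ⟨b1, b2⟩
    · exact r.c3 a a1 P b1 k
    · rcases b2.eq_or_lt with k | k
      · exact (q.c2 M hM P b1).2 k ▸ (h2 a a1).2
      · exact ((q.c2 M hM P b1).1 k).2.2.2.2.2 (h2 a a1).2
    · exact absurd (k.trans (h1 P b1).1) a2.not_gt
    · exact q.c3 a a1 P b1 k
  · rcases u2 a ha with a1 | ⟨a1, a2⟩ <;> rcases u2 b hb with b1 | ⟨b1, b2⟩
    · exact r.c5 a a1 b b1 k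
    · exact h5 a a1 b b1 b2
    · exact absurd (k.trans (h2 b b1).1) a2.not_gt
    · exact q.c5 a a1 b b1 k
  · rcases u1 P hP with a1 | ⟨a1, a2⟩
    · exact h6 P a1 a ha b hb k k'
    · exact q.c6 P a1 a (ha.resolve_left fun h => (h2 a h).1.not_ge (a2.trans k)) b
        (hb.resolve_left fun h => (h2 b h).1.not_ge (a2.trans k')) k k'

/-- Parameters of the game: a dense set, a root and finitely many points. -/
abbrev Par (g : Ω → C(X, R)) (z : Ω → X) (G : Set (Set (Ob Ω X))) (α0 : Ω) : Type :=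
  (Set (Cond g z G α0) × Set X) × (Set (BP Ω X) × Set (Ω × Set X))

/-- The final position of the game. -/
def W0 (π : Par g z G α0) (U V : Set X) (s : Set (Ob Ω X)) (c : Cond g z G α0) : Prop :=
  c ∈ π.1.1 ∧ π.2.1 ⊆ c.pts ∧ π.2.2 ⊆ c.els ∧ (∀ P ∈ c.pts, P ∈ π.2.1 ∨ P.sm ∈ s) ∧
    ∀ a ∈ c.els, a ∈ π.2.2 ∨ z a.1 ∈ U ∧ Disjoint V a.2 ∧ Disjoint π.1.2 a.2 ∧
      ∀ P ∈ π.2.1, (P.sm.wit a.1).1 ∈ U ∪ π.1.2 ∧ (P.sm.wit a.1).2 ∈ U ∪ π.1.2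

/-- Winning positions of the game. -/
def Win (π : Par g z G α0) (U V : Set X) : ℕ → Set (Ob Ω X) → Prop
  | 0, s => ∃ c, W0 π U V s c
  | i + 1, s => Lrg G {P | Win π U V i (insert P s)}

/-- The promise attached to a set of points. -/
def Prom (G : Set (Set (Ob Ω X))) (Z D : Set (Ob Ω X)) : Prop :=
  D ∈ G ∧ (Lrg G Z → D = Lam Z) ∧ (¬ Lrg G Z → Z ∩ D = ∅)

/-- The promises attached to a position. -/
def Prs (B : Ω → Set (Set X)) (π : Par g z G α0) (s : Set (Ob Ω X)) (β : Ω) : Set (Set (Ob Ω X)) :=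
  {D | ∃ i, ∃ U ∈ B β, ∃ V ∈ B β, D = Classical.epsilon (Prom G {P | Win π U V i (insert P s)})}

variable {B : Ω → Set (Set X)}

theorem Prs_ct (hc : Tubes g B) (π : Par g z G α0) (s : Set (Ob Ω X)) (β : Ω) :
    (Prs B π s β).Countable := by
  refine (countable_iUnion fun i : ℕ => (hc.ct β).biUnion fun U _ => (hc.ct β).image
    fun V => Classical.epsilon (Prom G {P | Win π U V i (insert P s)})).mono ?_
  rintro _ ⟨i, U, h1, V, h2, rfl⟩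
  exact mem_iUnion.2 ⟨i, mem_biUnion h1 ⟨V, h2, rfl⟩⟩

variable [Om Ω] [CompactSpace X]

theorem MaxG.prom (hG : MaxG g z B G) (Z : Set (Ob Ω X)) : Prom G Z (Classical.epsilon (Prom G Z)) := by
  refine Classical.epsilon_spec (p := Prom G Z) ?_
  by_cases h : Lrg G Z
  · exact ⟨_, hG.lam h, fun _ => rfl, fun k => (k h).elim⟩
  · have := h
    simp only [Lrg, not_forall, not_nonempty_iff_eq_empty] at this
    obtain ⟨D, h1, h2⟩ := this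
    exact ⟨D, h1, fun k => (h k).elim, fun _ => h2⟩

theorem MaxG.prs (hG : MaxG g z B G) (π : Par g z G α0) (s : Set (Ob Ω X)) (β : Ω) : Prs B π s β ⊆ G := by
  rintro _ ⟨i, U, -, V, -, rfl⟩
  exact (hG.prom _).1

theorem MaxG.down (hG : MaxG g z B G) (π : Par g z G α0) {β : Ω} {U V : Set X} (ht : U ∈ B β)
    (ht' : V ∈ B β) (s : Finset (Ob Ω X)) : (∀ P ∈ s, ∀ Q ∈ s, P ≠ Q → P.lv ≤ Q.lv → P ∈ Q.lib) →
      (∀ P ∈ s, β < P.lv ∧ P ∈ Diag (Prs B π)) → ∀ i, Win π U V i s →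
        ∃ j, Win π U V j ∅ := by
  classical
  induction s using Finset.induction_on_max_value (Ob.lv : Ob Ω X → Ω) with
  | empty => exact fun _ _ i h => ⟨i, by simpa using h⟩
  | insert a s h1 h2 ih =>
    intro k1 k2 i k3
    refine ih (fun P hP Q hQ => k1 P (Finset.mem_insert_of_mem hP) Q (Finset.mem_insert_of_mem hQ))
      (fun P hP => k2 P (Finset.mem_insert_of_mem hP)) (i + 1) (by_contra fun hn => ?_)
    have ha := k2 a (Finset.mem_insert_self _ _)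
    refine eq_empty_iff_forall_notMem.1 ((hG.prom _).2.2 hn) a ⟨by simpa using k3, ha.2 s s.finite_toSet
      (fun P hP => k1 P (Finset.mem_insert_of_mem hP) a (Finset.mem_insert_self _ _)
        (fun e => h1 (e ▸ hP)) (h2 P hP)) β ha.1 _ ⟨i, _, ht, _, ht', rfl⟩⟩

theorem MaxG.up (hG : MaxG g z B G) (π : Par g z G α0) {β β' : Ω} {U V : Set X} (ht : U ∈ B β)
    (ht' : V ∈ B β) {M : Ob Ω X} (h1 : M ∈ Diag (Prs B π)) (h2 : β < M.lv) (h3 : β' < M.lv)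
    {W : Set (Ω → X × X)} (h4 : IsOpen W) (h5 : M.wit ∈ W) (i : ℕ) : ∀ s : Set (Ob Ω X), s.Finite →
      (∀ P ∈ s, P ∈ M.lib ∧ β' < P.lv ∧ P.wit ∈ W) → Win π U V i s →
        ∃ s : Set (Ob Ω X), s.Finite ∧ (∀ P ∈ s, P ∈ M.lib ∧ β' < P.lv ∧ P.wit ∈ W) ∧
          ∃ c, W0 π U V s c := by
  induction i with
  | zero => exact fun s k1 k2 k3 => ⟨s, k1, k2, k3⟩
  | succ i ih =>
    intro s k1 k2 k3
    have := h1 s k1 (fun P hP => (k2 P hP).1) β h2 _ ⟨i, _, ht, _, ht', rfl⟩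
    rw [(hG.prom _).2.1 k3] at this
    obtain ⟨Q, a1, a2, a3, -, -, -, a4⟩ := this W h4 h5 β' ∅ finite_empty (empty_subset _)
    exact ih _ (k1.insert Q) (forall_mem_insert.2 ⟨⟨a2, a3 h3, a4⟩, k2⟩) a1

end Pool.Agent.Lib.MP_563af5_gt
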