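import Pool.Agent.Lib.MP_563af5_gt.ArDefs
import Pool.Agent.Lib.MP_fecf72_lc.Club

namespace Pool.Agent.Lib.MP_563af5_gt

open Set Filter Topology Pool.Agent.Lib.MP_fecf72_lc

/-- Well-orders of type omega one. -/
class Om (Ω : Type) [LinearOrder Ω] : Prop where
  wf : WellFoundedLT Ω
  ct : ∀ a : Ω, (Iio a).Countable
  un : ¬ (univ : Set Ω).Countable

instance : Om W1 where
  wf := inferInstance
  ct a := by
    have := Cardinal.mk_Iio_lt a (by simp)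
    rwa [Cardinal.mk_ord_toType, Cardinal.lt_aleph_one_iff, Cardinal.le_aleph0_iff_set_countable] at this
  un h := by
    rw [← Cardinal.le_aleph0_iff_set_countable, Cardinal.mk_univ, Cardinal.mk_ord_toType] at h
    exact absurd h (not_le.2 Cardinal.aleph0_lt_aleph_one)

variable {Ω : Type} [LinearOrder Ω] [Om Ω]

instance : WellFoundedLT Ω := Om.wf

theorem om_bdd {s : Set Ω} (h : s.Countable) : ∃ b, ∀ a ∈ s, a < b := by
  by_contra hc
  push Not at hc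
  refine Om.un (Ω := Ω) (((h.biUnion fun a _ => Om.ct a).union h).mono fun b _ => ?_)
  obtain ⟨a, h1, h2⟩ := hc b
  rcases h2.eq_or_lt with rfl | h2
  · exact Or.inr h1
  · exact Or.inl (mem_biUnion h1 h2)

instance : Nonempty Ω := let ⟨b, _⟩ := om_bdd (Ω := Ω) countable_empty; ⟨b⟩

instance : NoMaxOrder Ω := ⟨fun a => let ⟨b, h⟩ := om_bdd (countable_singleton a); ⟨b, h a rfl⟩⟩

theorem om_sup (f : ℕ → Ω) (hf : StrictMono f) :
    ∃ δ, (∀ n, f n < δ) ∧ ∀ β < δ, ∃ n, β < f n := by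
  obtain ⟨b, hb⟩ := om_bdd (countable_range f)
  obtain ⟨δ, h1, h2⟩ := (wellFounded_lt (α := Ω)).has_min {b | ∀ n, f n < b}
    ⟨b, fun n => hb _ ⟨n, rfl⟩⟩
  refine ⟨δ, h1, fun β hβ => ?_⟩
  by_contra hc
  push Not at hc
  exact h2 β (fun n => (hf (Nat.lt_succ_self n)).trans_le (hc _)) hβ

/-- The height of a hull. -/
theorem club_ht : ∀ᶠ N in Club, ∃ δ : Ω, ∀ ξ : Ω, In N ξ ↔ ξ < δ := by
  filter_upwards [club_countable, clo_sub (fun a : Ω => Iio a) Om.ct] with N h1 h2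
  obtain ⟨b, hb⟩ := om_bdd (countable_In Ω h1)
  obtain ⟨δ, h3, h4⟩ := (wellFounded_lt (α := Ω)).has_min {b | ¬ In N b}
    ⟨b, fun h => lt_irrefl _ (hb b h)⟩
  refine ⟨δ, fun ξ => ⟨fun h => ?_, fun h => by_contra fun k => h4 ξ k h⟩⟩
  by_contra hc
  rcases (not_lt.1 hc).eq_or_lt with rfl | k
  exacts [h3 h, h3 (h2 ξ h δ k)]

theorem club_fin (T : Type) : ∀ᶠ N in Club, ∀ s : Set T, s.Finite → (∀ a ∈ s, In N a) → In N s := by
  filter_upwards [clo0 (∅ : Set T), clo2 fun (a : T) (s : Set T) => insert a s] with N h1 h2 s hs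
  induction s, hs using Set.Finite.induction_on with
  | empty => exact fun _ => h1
  | insert _ _ ih =>
    exact fun h => h2 _ _ (h _ (mem_insert _ _)) (ih fun a ha => h a (mem_insert_of_mem _ ha))

variable {X R : Type} [TopologicalSpace X] [TopologicalSpace R] {g : Ω → C(X, R)}

omit [Om Ω] in
theorem Fib.self (x : X) (α : Ω) : x ∈ Fib g x α := fun _ _ => rfl

omit [Om Ω] in
theorem Fib.anti (x : X) {α β : Ω} (h : α ≤ β) : Fib g x β ⊆ Fib g x α :=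
  fun _ k ξ hξ => k ξ (hξ.trans_le h)

omit [Om Ω] in
theorem Fib.eq {x y : X} {α β : Ω} (h : y ∈ Fib g x α) (k : β ≤ α) : Fib g y β = Fib g x β := by
  ext t
  exact forall₂_congr fun ξ hξ => by rw [h ξ (hξ.trans_le k)]

omit [Om Ω] in
theorem Fib.closed [T2Space R] (x : X) (α : Ω) : IsClosed (Fib g x α) := by
  simp only [Fib, ofPred_forall]
  exact isClosed_iInter fun ξ => isClosed_iInter fun _ =>
    isClosed_eq (g ξ).continuous continuous_const

omit [Om Ω] in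
theorem tube [T2Space R] [CompactSpace X] {x : X} {ρ : Ω} {O : Set X} (hO : IsOpen O) (h : Fib g x ρ ⊆ O) :
    ∃ O', IsOpen O' ∧ x ∈ O' ∧ ∀ y ∈ O', Fib g y ρ ⊆ O := by
  have h1 : IsClosed {p : X × X | p.2 ∈ Fib g p.1 ρ ∧ p.2 ∉ O} := by
    refine IsClosed.inter ?_ (hO.isClosed_compl.preimage continuous_snd)
    show IsClosed {p : X × X | ∀ ξ < ρ, g ξ p.2 = g ξ p.1}
    simp only [ofPred_forall]
    exact isClosed_iInter fun ξ => isClosed_iInter fun _ =>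
      isClosed_eq ((g ξ).continuous.comp continuous_snd) ((g ξ).continuous.comp continuous_fst)
  refine ⟨_, (isClosedMap_fst_of_compactSpace _ h1).isOpen_compl, ?_, fun y hy t ht => ?_⟩
  · rintro ⟨p, ⟨k1, k2⟩, rfl⟩
    exact k2 (h k1)
  · by_contra hc
    exact hy ⟨(y, t), ⟨ht, hc⟩, rfl⟩

theorem exists_rank [T2Space R] [CompactSpace X] [T2Space X] [FirstCountableTopology X]
    (hg : ∀ x y, (∀ ξ, g ξ x = g ξ y) → x = y) (x : X) : ∃ ρ, Fib g x ρ ⊆ {x} := by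
  obtain ⟨U, hU⟩ := (𝓝 x).exists_antitone_basis
  have key : ∀ n, ∃ ρ, Fib g x ρ ⊆ U n := by
    intro n
    have hd : Directed (· ⊇ ·) (Fib g x) := directed_of_isDirected_le fun a b h => Fib.anti x h
    refine exists_subset_nhds_of_isCompact' hd (fun a => (Fib.closed x a).isCompact)
      (Fib.closed x) fun y hy => ?_
    obtain rfl : y = x := hg _ _ fun ξ =>
      let ⟨b, hb⟩ := exists_gt ξ; mem_iInter.1 hy b ξ hb
    exact hU.1.mem_of_mem trivial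
  choose ρ hρ using key
  obtain ⟨b, hb⟩ := om_bdd (countable_range ρ)
  refine ⟨b, fun y hy => ?_⟩
  by_contra hc
  obtain ⟨n, -, hn⟩ := hU.1.mem_iff.1 (compl_singleton_mem_nhds (Ne.symm hc))
  exact hn (hρ n (Fib.anti x (hb _ ⟨n, rfl⟩).le hy)) rfl

/-- Unbounded sets of sequences. -/
def Unb (A : Set (Ω × (ℕ → Ω))) : Prop := ∀ ξ, ∃ a ∈ A, ξ < a.1

/-- `x` is a limit of fibres at level `ρ` of sequences in `A`. -/
def LimP (g : Ω → C(X, R)) (z : Ω → X) (A : Set (Ω × (ℕ → Ω))) (x : ℕ → X) (ρ : Ω) : Prop :=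
  ∀ (n : ℕ) (O : ℕ → Set X), (∀ i < n, IsOpen (O i) ∧ x i ∈ O i) → ∀ ξ, ∃ a ∈ A, ξ < a.1 ∧
    ∀ i < n, Fib g (z (a.2 i)) ρ ⊆ O i

theorem exists_limP [T2Space R] [CompactSpace X] (hr : ∀ x : X, ∃ ρ, Fib g x ρ ⊆ {x}) (z : Ω → X)
    {A : Set (Ω × (ℕ → Ω))} (h : Unb A) : ∃ ρ x, LimP g z A x ρ := by
  have hne : (𝓟 A ⊓ comap Prod.fst atTop).NeBot := by
    rw [inf_comm, ← frequently_mem_iff_neBot, frequently_comap, frequently_atTop]
    intro ξ
    obtain ⟨a, h1, h2⟩ := h ξ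
    exact ⟨a.1, h2.le, a, rfl, h1⟩
  obtain ⟨u, hu⟩ := Ultrafilter.exists_le (𝓟 A ⊓ comap Prod.fst atTop)
  choose x _ hx using fun i => isCompact_univ.ultrafilter_le_nhds
    (u.map fun a => z (a.2 i)) (by simp)
  choose r hr using hr
  obtain ⟨ρ, hρ⟩ := om_bdd (countable_range fun i => r (x i))
  refine ⟨ρ, x, fun n O hO ξ => ?_⟩
  choose! O' k1 k2 k3 using fun i hi => tube (g := g) (x := x i) (ρ := ρ) (hO i hi).1
    (((Fib.anti _ (hρ _ ⟨i, rfl⟩).le).trans (hr _)).trans (singleton_subset_iff.2 (hO i hi).2))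
  have e1 : ∀ᶠ a in u, a ∈ A := hu (mem_inf_of_left (mem_principal_self A))
  have e2 : ∀ᶠ a : Ω × (ℕ → Ω) in u, ξ < a.1 := hu (mem_inf_of_right (preimage_mem_comap (Ioi_mem_atTop ξ)))
  have e3 : ∀ᶠ a : Ω × (ℕ → Ω) in u, ∀ i ∈ Iio n, z (a.2 i) ∈ O' i :=
    (eventually_all_finite (finite_Iio n)).2 fun i hi => hx i ((k1 i hi).mem_nhds (k2 i hi))
  obtain ⟨a, a1, a2, a3⟩ := (e1.and (e2.and e3)).exists
  exact ⟨a, a1, a2, fun i hi => k3 i hi _ (a3 i hi)⟩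

/-- A countable supply of saturated sets at every level. -/
structure Tubes (g : Ω → C(X, R)) (B : Ω → Set (Set X)) : Prop where
  ct : ∀ β, (B β).Countable
  mono : Monotone B
  sat : ∀ β, ∀ U ∈ B β, ∀ x ∈ U, Fib g x β ⊆ U
  mid : ∀ β (s : Set X) O, s.Finite → IsOpen O → (∀ x ∈ s, Fib g x β ⊆ O) →
    ∃ U ∈ B β, s ⊆ U ∧ U ⊆ O
  union : ∀ β (T : Set (Set X)), T.Finite → T ⊆ B β → ⋃₀ T ∈ B β

theorem exists_tubes [T2Space R] [SecondCountableTopology R] [CompactSpace X] (g : Ω → C(X, R)) :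
    ∃ B, Tubes g B := by
  have hc : ∀ β : Ω, Countable (Iio β) := fun β => (Om.ct β).to_subtype
  let π : ∀ β : Ω, X → Iio β → R := fun β x ξ => g ξ x
  have hπ : ∀ β, Continuous (π β) := fun β => by fun_prop
  let B0 : Ω → Set (Set X) := fun β =>
    ⋃ b ∈ Iic β, preimage (π b) '' TopologicalSpace.countableBasis (Iio b → R)
  have c0 : ∀ β, (B0 β).Countable := fun β => (((Om.ct β).insert β).mono fun _ h =>
    h.eq_or_lt).biUnion fun b _ => (TopologicalSpace.countable_countableBasis _).image _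
  refine ⟨fun β => sUnion '' {T | T.Finite ∧ T ⊆ B0 β},
    fun β => (countable_ofPred_finite_subset (c0 β)).image _,
    fun a b h => image_mono fun T k => ⟨k.1, k.2.trans (biUnion_subset_biUnion_left
      (Iic_subset_Iic.2 h))⟩, ?_, fun β s O h1 h2 h3 => ?_, fun β T h1 h2 => ?_⟩
  · rintro β _ ⟨T, h, rfl⟩ x ⟨U, h1, h2⟩ y hy
    obtain ⟨b, h3, W, -, rfl⟩ := mem_iUnion₂.1 (h.2 h1)
    exact ⟨_, h1, show π b y ∈ W from
      (funext fun ξ => hy ξ (ξ.2.trans_le h3) : π b y = π b x) ▸ h2⟩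
  · have : ∀ x ∈ s, ∃ U ∈ B0 β, x ∈ U ∧ U ⊆ O := fun x hx => by
      obtain ⟨W, a1, a2, a3⟩ := (TopologicalSpace.isBasis_countableBasis _).exists_subset_of_mem_open
        (a := π β x) (u := (π β '' Oᶜ)ᶜ)
        (fun ⟨y, b1, b2⟩ => b1 (h3 x hx fun ξ hξ => congrFun b2 ⟨ξ, hξ⟩))
        (h2.isClosed_compl.isCompact.image (hπ β)).isClosed.isOpen_compl
      exact ⟨_, mem_biUnion (le_refl β) ⟨W, a1, rfl⟩, a2,
        fun y hy => by_contra fun k => a3 hy ⟨y, k, rfl⟩⟩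
    choose! U k1 k2 k3 using this
    exact ⟨_, ⟨U '' s, ⟨h1.image _, image_subset_iff.2 k1⟩, rfl⟩,
      fun x hx => ⟨_, ⟨x, hx, rfl⟩, k2 x hx⟩, sUnion_subset (forall_mem_image.2 k3)⟩
  · choose! S k1 k2 using fun U (h : U ∈ T) => h2 h
    refine ⟨⋃ U ∈ T, S U, ⟨h1.biUnion fun U h => (k1 U h).1, iUnion₂_subset fun U h => (k1 U h).2⟩,
      (sUnion_subset fun V h => ?_).antisymm (sUnion_subset fun U h => ?_)⟩
    · obtain ⟨U, a1, a2⟩ := mem_iUnion₂.1 h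
      exact (subset_sUnion_of_mem a2).trans ((k2 U a1).le.trans (subset_sUnion_of_mem a1))
    · exact (k2 U h).ge.trans (sUnion_subset_sUnion (subset_biUnion_of_mem (u := S) h))

end Pool.Agent.Lib.MP_563af5_gt
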