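import Pool.Agent.Lib.MP_563af5_gt.Defs

open Set Filter Topology TopologicalSpace

namespace Pool.Agent.Lib.MP_563af5_gt

lemma SOCA.code (h : SOCA) {I E : Type} [TopologicalSpace E] [MetrizableSpace E]
    [SecondCountableTopology E] {e : I → E} (he : Function.Injective e) {S : Set I}
    (hS : ¬ S.Countable) {W : Set (E × E)} (hW : IsOpen W)
    (hs : ∀ x y, (x, y) ∈ W → (y, x) ∈ W) :
    ∃ T ⊆ S, ¬ T.Countable ∧ ((∀ x ∈ T, ∀ y ∈ T, x ≠ y → (e x, e y) ∈ W) ∨
      (∀ x ∈ T, ∀ y ∈ T, x ≠ y → (e x, e y) ∉ W)) := by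
  let m := metrizableSpaceMetric E
  let _ : MetricSpace S := MetricSpace.induced (fun x : S => e x) (he.comp Subtype.val_injective) m
  have hi : IsInducing fun x : S => e x := ⟨rfl⟩
  have := hi.secondCountableTopology
  obtain ⟨T, h1, h2⟩ := h S (not_countable_iff.1 fun c => hS (countable_coe_iff.1 c))
    ((Prod.map (fun x : S => e x) fun x : S => e x) ⁻¹' W)
    (hW.preimage (hi.continuous.prodMap hi.continuous)) fun x y => hs _ _
  refine ⟨Subtype.val '' T, by rintro _ ⟨x, -, rfl⟩; exact x.2, fun c => h1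
    (countable_of_injective_of_countable_image Subtype.val_injective.injOn c), h2.imp ?_ ?_⟩ <;>
  · rintro H _ ⟨x, hx, rfl⟩ _ ⟨y, hy, rfl⟩ hxy
    exact H x hx y hy fun c => hxy (congrArg _ c)

lemma fin3 {i j k l : Fin 3} (h : i ≠ j) (h' : k ≠ l) : i = k ∨ i = l ∨ j = k ∨ j = l := by
  revert i j k l; decide

variable {X M : Type} [TopologicalSpace X] [TopologicalSpace M]

lemma hl [CompactSpace X] [PerfectlyNormalSpace X] : HereditarilyLindelofSpace X :=
  HereditarilyLindelofSpace.of_forall_isOpen fun s hs => by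
    obtain ⟨U, ho, hu⟩ := isGδ_iff_eq_iInter_nat.1 hs.isClosed_compl.isGδ
    rw [← compl_compl s, hu, compl_iInter]
    exact isLindelof_iUnion fun n => (ho n).isClosed_compl.isLindelof

/-- `W` is an outer network for the sets `C y`, `y ∈ Y`. -/
def Net {ι : Type} (W : ι → Set X) (C : M → Set X) (Y : Set M) : Prop :=
  ∀ y ∈ Y, ∀ N, IsClosed N → Disjoint (C y) N → ∃ n, C y ⊆ W n ∧ Disjoint (W n) N

omit [TopologicalSpace M] in
lemma Net.mono {ι : Type} {W : ι → Set X} {C : M → Set X} {Y Y' : Set M} (h : Net W C Y)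
    (h' : Y' ⊆ Y) : Net W C Y' := fun y hy => h y (h' hy)

theorem core (soca : SOCA) [HereditarilyLindelofSpace X] [MetrizableSpace M]
    [SecondCountableTopology M] {ι : Type} [Countable ι] {W : ι → Set X} {C : M → Set X}
    {Y : Set M} (hY : ¬ Y.Countable) (net : Net W C Y) {O : M → Fin 3 → Set X}
    (hO : ∀ y ∈ Y, ∀ i, IsOpen (O y i)) (hm : ∀ y ∈ Y, ∀ i, (C y ∩ O y i).Nonempty) :
    ∃ b ∈ Y, ∃ i j, i ≠ j ∧ ¬ {y ∈ Y | (C y ∩ closure (O b i)).Nonempty ∧
      (C y ∩ closure (O b j)).Nonempty}.Countable := by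
  classical
  let e : M → M × (ι → Bool) × (Fin 3 → ι → Bool) := fun y =>
    (y, fun n => decide (C y ⊆ W n), fun i n => decide (Disjoint (W n) (closure (O y i))))
  have step : ∀ (i : Fin 3) (S : Set M), S ⊆ Y → ¬ S.Countable → ∃ T ⊆ S, ¬ T.Countable ∧
      ∀ x ∈ T, ∀ y ∈ T, x ≠ y → (C x ∩ closure (O y i)).Nonempty ∨
        (C y ∩ closure (O x i)).Nonempty := fun i S hS hc => by
    have op : ∀ {g : (M × (ι → Bool) × (Fin 3 → ι → Bool)) × M × (ι → Bool) × (Fin 3 → ι → Bool) →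
        Bool}, Continuous g → IsOpen {p | g p = true} := fun hg =>
      (isOpen_discrete {true}).preimage hg
    obtain ⟨T, h1, h2, h3 | h3⟩ := soca.code (e := e) (fun x y h => congrArg Prod.fst h) hc
      (W := (⋃ n, {p | p.1.2.1 n = true} ∩ {p | p.2.2.2 i n = true}) ∩
        ⋃ n, {p | p.2.2.1 n = true} ∩ {p | p.1.2.2 i n = true})
      ((isOpen_iUnion fun n => (op (by fun_prop)).inter (op (by fun_prop))).inter
        (isOpen_iUnion fun n => (op (by fun_prop)).inter (op (by fun_prop))))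
      fun x y h => by simpa [and_comm] using h
    · exfalso
      obtain ⟨t, t1, t2⟩ := eq_open_union_countable (fun y : T => O y i)
        fun y => hO y (hS (h1 y.2)) i
      refine h2 ((t1.image Subtype.val).mono fun y hy => ?_)
      obtain ⟨x, x1, x2⟩ := hm y (hS (h1 hy)) i
      obtain ⟨z, z1, z2⟩ := mem_iUnion₂.1 (t2.ge (mem_iUnion.2 ⟨⟨y, hy⟩, x2⟩))
      refine ⟨z, z1, by_contra fun c => ?_⟩
      obtain ⟨n, n1, n2⟩ := mem_iUnion.1 (h3 y hy z z.2 (Ne.symm c)).1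
      exact disjoint_left.1 (of_decide_eq_true n2) (of_decide_eq_true n1 x1) (subset_closure z2)
    · refine ⟨T, h1, h2, fun x hx y hy hxy => by_contra fun c => h3 x hx y hy hxy ?_⟩
      rw [not_or, not_nonempty_iff_eq_empty, not_nonempty_iff_eq_empty, ← disjoint_iff_inter_eq_empty,
        ← disjoint_iff_inter_eq_empty] at c
      obtain ⟨n, n1, n2⟩ := net x (hS (h1 hx)) _ isClosed_closure c.1
      obtain ⟨m, m1, m2⟩ := net y (hS (h1 hy)) _ isClosed_closure c.2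
      exact ⟨mem_iUnion.2 ⟨n, decide_eq_true n1, decide_eq_true n2⟩,
        mem_iUnion.2 ⟨m, decide_eq_true m1, decide_eq_true m2⟩⟩
  obtain ⟨T0, a1, a2, a3⟩ := step 0 Y subset_rfl hY
  obtain ⟨T1, b1, b2, b3⟩ := step 1 T0 a1 a2
  obtain ⟨T, c1, c2, c3⟩ := step 2 T1 (b1.trans a1) b2
  have TY : T ⊆ Y := c1.trans (b1.trans a1)
  have H : ∀ x ∈ T, ∀ y ∈ T, x ≠ y → ∀ i, (C x ∩ closure (O y i)).Nonempty ∨
      (C y ∩ closure (O x i)).Nonempty := fun x hx y hy hxy i => by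
    fin_cases i
    exacts [a3 x (b1 (c1 hx)) y (b1 (c1 hy)) hxy, b3 x (c1 hx) y (c1 hy) hxy, c3 x hx y hy hxy]
  by_contra! hc
  let Z : M → Set M := fun b => {y ∈ Y | ∀ i j, i ≠ j → (C y ∩ closure (O b i)).Nonempty ∨
    (C y ∩ closure (O b j)).Nonempty}
  have hZ : ∀ b ∈ Y, (Z b).Countable := fun b hb => by
    refine (((hc b hb 0 1 (by decide)).union (hc b hb 0 2 (by decide))).union
      (hc b hb 1 2 (by decide))).mono fun y hy => ?_
    have := hy.1
    have := hy.2 0 1 (by decide)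
    have := hy.2 0 2 (by decide)
    have := hy.2 1 2 (by decide)
    simp only [mem_union, mem_ofPred_eq]
    tauto
  have : ∀ p : ι × ι, ∃ x, (∃ x ∈ T, C x ⊆ W p.1 ∧ C x ⊆ W p.2) →
      x ∈ T ∧ C x ⊆ W p.1 ∧ C x ⊆ W p.2 := fun p => by
    by_cases h : ∃ x ∈ T, C x ⊆ W p.1 ∧ C x ⊆ W p.2
    · exact h.imp fun x hx _ => hx
    · obtain ⟨x, -⟩ := nonempty_iff_ne_empty.2 fun e : Y = ∅ => hY (e ▸ countable_empty)
      exact ⟨x, fun c => absurd c h⟩
  choose d hd using this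
  obtain ⟨b, hb, hb'⟩ := not_subset.1 fun c : T ⊆ range d ∪ ⋃ x ∈ range d ∩ Y, Z x =>
    c2 (((countable_range d).union (((countable_range d).mono inter_subset_left).biUnion
      fun x hx => hZ x hx.2)).mono c)
  refine c2 ((hZ b (TY hb)).mono fun y hy => ?_)
  refine ⟨TY hy, fun i j hij => by_contra fun c => ?_⟩
  rw [not_or, not_nonempty_iff_eq_empty, not_nonempty_iff_eq_empty, ← disjoint_iff_inter_eq_empty,
    ← disjoint_iff_inter_eq_empty] at c
  obtain ⟨n, n1, n2⟩ := net y (TY hy) _ isClosed_closure c.1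
  obtain ⟨m, m1, m2⟩ := net y (TY hy) _ isClosed_closure c.2
  obtain ⟨d1, d2, d3⟩ := hd (n, m) ⟨y, hy, n1, m1⟩
  refine hb' (Or.inr (mem_biUnion ⟨mem_range_self (n, m), TY d1⟩ ⟨TY hb, fun k l hkl => ?_⟩))
  have h1 := H _ d1 b hb fun c => hb' (Or.inl ⟨_, c⟩)
  have h2 := (h1 i).resolve_left (not_nonempty_iff_eq_empty.2 (n2.mono_left d2).inter_eq)
  have h3 := (h1 j).resolve_left (not_nonempty_iff_eq_empty.2 (m2.mono_left d3).inter_eq)
  rcases fin3 hij hkl with c | c | c | c <;> subst c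
  exacts [Or.inl h2, Or.inr h2, Or.inl h3, Or.inr h3]

lemma sep3 [T2Space X] [NormalSpace X] {O : Set X} (hO : IsOpen O) {x : Fin 3 → X}
    (hx : Function.Injective x) (hxO : ∀ i, x i ∈ O) :
    ∃ V U : Fin 3 → Set X, (∀ i, IsOpen (V i) ∧ IsOpen (U i) ∧ x i ∈ V i ∧ closure (V i) ⊆ U i ∧
      closure (U i) ⊆ O) ∧ ∀ i j, i ≠ j → Disjoint (closure (U i)) (closure (U j)) := by
  obtain ⟨A, h1, h2⟩ := (finite_range x).t2_separation
  choose U u1 u2 u3 using fun i => normal_exists_closure_subset (isClosed_singleton (x := x i))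
    ((h1 (x i)).2.inter hO) (singleton_subset_iff.2 ⟨(h1 _).1, hxO i⟩)
  choose V v1 v2 v3 using fun i => normal_exists_closure_subset (isClosed_singleton (x := x i))
    (u1 i) (u2 i)
  exact ⟨V, U, fun i => ⟨v1 i, u1 i, v2 i rfl, v3 i, (u3 i).trans inter_subset_right⟩,
    fun i j hij => (h2 (mem_range_self i) (mem_range_self j) (hx.ne hij)).mono
      ((u3 i).trans inter_subset_left) ((u3 j).trans inter_subset_left)⟩

lemma free {A : Type} {S : Set A} {R : A → A → Prop} (hr : ∀ a ∈ S, R a a)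
    (h : ∀ D ⊆ S, D.Countable → ∃ a ∈ S, ∀ d ∈ D, ¬ R d a) :
    ∃ Y ⊆ S, ¬ Y.Countable ∧ ∀ b ∈ Y, {a ∈ Y | R b a}.Countable := by
  have wf : WellFounded (WellOrderingRel (α := A)) := IsWellFounded.wf
  let P : A → Prop := wf.fix fun a IH => a ∈ S ∧ ∀ d (h : WellOrderingRel d a), IH d h → ¬ R d a
  have hP : ∀ a, P a ↔ a ∈ S ∧ ∀ d, WellOrderingRel d a → P d → ¬ R d a := fun a => by
    simp only [P]; rw [wf.fix_eq]
  have h1 : ¬ {a | P a}.Countable := fun c => by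
    obtain ⟨a, a1, a2⟩ := h _ (fun a ha => ((hP a).1 ha).1) c
    exact a2 a ((hP a).2 ⟨a1, fun d _ hd => a2 d hd⟩) (hr a a1)
  refine ⟨{b | P b ∧ {a | P a ∧ WellOrderingRel a b}.Countable}, fun a ha => ((hP a).1 ha.1).1,
    fun c => ?_, fun b hb => (hb.2.insert b).mono fun a ha => ?_⟩
  · obtain ⟨b, b1, b2⟩ := wf.has_min {b | P b ∧ ¬ {a | P a ∧ WellOrderingRel a b}.Countable} (by
      by_contra! e
      exact h1 (c.mono fun a ha => by exact ⟨ha, by_contra fun c' => e.le ⟨ha, c'⟩⟩))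
    exact b1.2 (c.mono fun a ha => by exact ⟨ha.1, by_contra fun c' => b2 a ⟨ha.1, c'⟩ ha.2⟩)
  · rcases trichotomous_of WellOrderingRel a b with c | c | c
    · exact Or.inr ⟨ha.1.1, c⟩
    · exact Or.inl c
    · exact absurd ha.2 (((hP a).1 ha.1.1).2 b c hb.1)

theorem splitting (soca : SOCA) [CompactSpace X] [T2Space X] [HereditarilyLindelofSpace X]
    [MetrizableSpace M] [SecondCountableTopology M] {f : X → M} (hf : Continuous f) :
    ∃ g : X → ℕ → ℝ, Continuous g ∧ ∀ x : Fin 3 → X, Function.Injective x →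
      (∀ i, f (x i) = f (x 0)) → ∃ p q, f p = f (x 0) ∧ f q = f (x 0) ∧ g p ≠ g q := by
  by_contra! hc
  let S : Set M := {y | ∃ x : Fin 3 → X, Function.Injective x ∧ ∀ i, f (x i) = y}
  have : ∀ y, ∃ V : Fin 3 → Set X, y ∈ S → (∀ i, IsOpen (V i) ∧ (f ⁻¹' {y} ∩ V i).Nonempty) ∧
      ∀ i j, i ≠ j → Disjoint (closure (V i)) (closure (V j)) := fun y => by
    by_cases h : y ∈ S
    · obtain ⟨x, x1, x2⟩ := h
      obtain ⟨V, U, h1, h2⟩ := sep3 isOpen_univ x1 fun _ => mem_univ _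
      exact ⟨U, fun _ => ⟨fun i => ⟨(h1 i).2.1, x i, x2 i,
        (h1 i).2.2.2.1 (subset_closure (h1 i).2.2.1)⟩, h2⟩⟩
    · exact ⟨fun _ => ∅, fun c => absurd c h⟩
  choose V hV using this
  obtain ⟨Y, y1, y2, y3⟩ := free (S := S) (R := fun b y => ∃ i j, i ≠ j ∧
      (f ⁻¹' {y} ∩ closure (V b i)).Nonempty ∧ (f ⁻¹' {y} ∩ closure (V b j)).Nonempty)
    (fun y hy => ⟨0, 1, by decide, ((hV y hy).1 0).2.mono (inter_subset_inter_right _ subset_closure),
      ((hV y hy).1 1).2.mono (inter_subset_inter_right _ subset_closure)⟩) fun D hD c => by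
      have := c.to_subtype
      choose u u1 u2 u3 using fun p : {p : D × Fin 3 × Fin 3 // p.2.1 ≠ p.2.2} =>
        exists_continuous_zero_one_of_isClosed isClosed_closure isClosed_closure
          ((hV _ (hD p.1.1.2)).2 _ _ p.2)
      obtain ⟨k, hk⟩ := exists_surjective_nat (Option {p : D × Fin 3 × Fin 3 // p.2.1 ≠ p.2.2})
      obtain ⟨x, x1, x2, x3⟩ := hc (fun z n => (k n).elim 0 fun p => u p z)
        (continuous_pi fun n => by cases k n <;> simp only [Option.elim] <;> fun_prop)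
      refine ⟨_, ⟨x, x1, x2⟩, ?_⟩
      rintro d hd ⟨i, j, hij, ⟨p, p1, p2⟩, q, q1, q2⟩
      obtain ⟨n, hn⟩ := hk (some ⟨(⟨d, hd⟩, i, j), hij⟩)
      have := congrFun (x3 p q p1 q1) n
      simp only [hn, Option.elim] at this
      rw [u1 _ p2, u2 _ q2] at this
      simp at this
  obtain ⟨b, hb, i, j, hij, h⟩ := core soca (C := fun y => f ⁻¹' {y})
    (W := fun B : countableBasis M => f ⁻¹' B) y2 (fun y _ N hN hd => by
      obtain ⟨B, b1, b2, b3⟩ := (isBasis_countableBasis M).exists_subset_of_mem_open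
        (a := y) (u := (f '' N)ᶜ) (fun ⟨x, x1, x2⟩ => disjoint_left.1 hd x2 x1)
        (hf.isClosedMap N hN).isOpen_compl
      exact ⟨⟨B, b1⟩, preimage_mono (singleton_subset_iff.2 b2),
        disjoint_left.2 fun x x1 x2 => b3 x1 ⟨x, x2, rfl⟩⟩)
    (fun y hy i => ((hV y (y1 hy)).1 i).1) fun y hy i => ((hV y (y1 hy)).1 i).2
  exact h ((y3 b hb).mono fun y hy => by exact ⟨hy.1, i, j, hij, hy.2⟩)

end Pool.Agent.Lib.MP_563af5_gt
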