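import Mathlib

namespace Pool.Agent.Lib.MP_563af5_gt

/-- The semi-open colouring axiom of Abraham, Rubin and Shelah: for an uncountable separable
metric space `E` and an open symmetric `W ⊆ E × E` there is an uncountable `T ⊆ E` all of whose
pairs of distinct points are in `W`, or all of whose pairs of distinct points are outside `W`. -/
def SOCA : Prop :=
  ∀ (E : Type) [MetricSpace E] [TopologicalSpace.SeparableSpace E], Uncountable E →
    ∀ W : Set (E × E), IsOpen W → (∀ x y, (x, y) ∈ W → (y, x) ∈ W) →
      ∃ T : Set E, ¬ T.Countable ∧ ((∀ x ∈ T, ∀ y ∈ T, x ≠ y → (x, y) ∈ W) ∨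
        (∀ x ∈ T, ∀ y ∈ T, x ≠ y → (x, y) ∉ W))

/-- Kunen's `𝔠`-tightness of a map to a metrizable compactum: the images of continuum many
pairwise disjoint closed sets always have a countable intersection. -/
def CTight {X M : Type} [TopologicalSpace X] (f : X → M) : Prop :=
  ∀ P : (ℕ → Bool) → Set X, (∀ t, IsClosed (P t)) → (∀ s t, s ≠ t → Disjoint (P s) (P t)) →
    (⋂ t, f '' P t).Countable

end Pool.Agent.Lib.MP_563af5_gt
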