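import Pool.Agent.Lib.MP_563af5_gt.Core

open Set Filter Topology TopologicalSpace

namespace Pool.Agent.Lib.MP_563af5_gt

variable {X M : Type} [TopologicalSpace X] [TopologicalSpace M]

lemma two_parts [MetrizableSpace M] [SecondCountableTopology M] {Y : Set M} (hY : ¬ Y.Countable) :
    ∃ Z : Bool → Set M, (∀ b, Z b ⊆ Y ∧ ¬ (Z b).Countable) ∧
      Disjoint (closure (Z false)) (closure (Z true)) := by
  have h1 : {y ∈ Y | ∃ U ∈ 𝓝 y, (U ∩ Y).Countable}.Countable := by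
    have : ∀ y, ∃ U ∈ 𝓝 y, (∃ U ∈ 𝓝 y, (U ∩ Y).Countable) → (U ∩ Y).Countable := fun y => by
      by_cases h : ∃ U ∈ 𝓝 y, (U ∩ Y).Countable
      · exact h.imp fun U hU => ⟨hU.1, fun _ => hU.2⟩
      · exact ⟨univ, univ_mem, fun c => absurd c h⟩
    choose U u1 u2 using this
    obtain ⟨t, t1, t2, t3⟩ := countable_cover_nhdsWithin
      (s := {y ∈ Y | ∃ U ∈ 𝓝 y, (U ∩ Y).Countable}) fun y _ => nhdsWithin_le_nhds (u1 y)
    refine (t2.biUnion fun y hy => u2 y (t1 hy).2).mono fun y hy => ?_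
    obtain ⟨z, z1, z2⟩ := mem_iUnion₂.1 (t3 hy)
    exact mem_iUnion₂.2 ⟨z, z1, z2, hy.1⟩
  obtain ⟨x, hx, hx'⟩ := not_subset.1 fun c => hY (h1.mono c)
  obtain ⟨y, hy, hy'⟩ := not_subset.1 fun c => hY ((h1.insert x).mono c)
  rw [mem_insert_iff, not_or] at hy'
  obtain ⟨U, hU, V, hV, h⟩ := (disjoint_nhds_nhds.2 hy'.1).exists_mem_filter_basis
    (closed_nhds_basis y) (closed_nhds_basis x)
  refine ⟨fun b => (bif b then V else U) ∩ Y, fun b => ⟨inter_subset_right, fun c => ?_⟩,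
    h.mono (closure_minimal inter_subset_left hU.2) (closure_minimal inter_subset_left hV.2)⟩
  cases b
  exacts [hy'.2 ⟨hy, U, hU.1, c⟩, hx' ⟨hx, V, hV.1, c⟩]

variable (soca : SOCA) [CompactSpace X] [T2Space X] [HereditarilyLindelofSpace X]
  [MetrizableSpace M] [CompactSpace M] {ι : Type} [Countable ι] {W : ι → Set X} {C : M → Set X}
  {Y0 : Set M} (net : Net W C Y0) (per : ∀ y ∈ Y0, Preperfect (C y))
include soca net per

lemma split1 {Y : Set M} (h0 : Y ⊆ Y0) (hY : ¬ Y.Countable) {O : Set X} (hO : IsOpen O)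
    (hm : ∀ y ∈ Y, (C y ∩ O).Nonempty) : ∃ Z ⊆ Y, ¬ Z.Countable ∧ ∃ A : Bool → Set X,
      (∀ b, IsOpen (A b) ∧ A b ⊆ O ∧ ∀ y ∈ Z, (C y ∩ A b).Nonempty) ∧
        Disjoint (closure (A false)) (closure (A true)) := by
  have : ∀ y, ∃ V U : Fin 3 → Set X, y ∈ Y → (∀ i, IsOpen (V i) ∧ IsOpen (U i) ∧
      (C y ∩ V i).Nonempty ∧ closure (V i) ⊆ U i ∧ closure (U i) ⊆ O) ∧
      ∀ i j, i ≠ j → Disjoint (closure (U i)) (closure (U j)) := fun y => by
    by_cases h : y ∈ Y
    · obtain ⟨p, p1, p2⟩ := hm y h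
      let x := (Infinite.of_accPt ((per y (h0 h)).open_inter hO p ⟨p2, p1⟩)).natEmbedding
      obtain ⟨V, U, h1, h2⟩ := sep3 hO (x := fun i : Fin 3 => x i)
        (Subtype.val_injective.comp (x.injective.comp Fin.val_injective)) fun i => (x i).2.1
      exact ⟨V, U, fun _ => ⟨fun i => ⟨(h1 i).1, (h1 i).2.1, ⟨_, (x i).2.2, (h1 i).2.2.1⟩,
        (h1 i).2.2.2⟩, h2⟩⟩
    · exact ⟨fun _ => ∅, fun _ => ∅, fun c => absurd c h⟩
  choose V U h using this
  obtain ⟨b, hb, i, j, hij, c⟩ := core soca hY (net.mono h0) (fun y hy i => ((h y hy).1 i).1)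
    fun y hy i => ((h y hy).1 i).2.2.1
  refine ⟨_, sep_subset _ _, c, fun a => U b (bif a then j else i), fun a =>
    ⟨((h b hb).1 _).2.1, subset_closure.trans ((h b hb).1 _).2.2.2.2, fun y hy => ?_⟩,
    (h b hb).2 i j hij⟩
  cases a
  exacts [hy.2.1.mono (inter_subset_inter_right _ ((h b hb).1 _).2.2.2.1),
    hy.2.2.mono (inter_subset_inter_right _ ((h b hb).1 _).2.2.2.1)]

lemma split2 {𝒪 : Set (Set X)} (hf : 𝒪.Finite) : ∀ {Y : Set M}, Y ⊆ Y0 → ¬ Y.Countable →
    (∀ O ∈ 𝒪, IsOpen O ∧ ∀ y ∈ Y, (C y ∩ O).Nonempty) → ∃ Z ⊆ Y, ¬ Z.Countable ∧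
      ∃ A : Set X → Bool → Set X, ∀ O ∈ 𝒪, (∀ b, IsOpen (A O b) ∧ A O b ⊆ O ∧
        ∀ y ∈ Z, (C y ∩ A O b).Nonempty) ∧ Disjoint (closure (A O false)) (closure (A O true)) := by
  classical
  induction 𝒪, hf using Set.Finite.induction_on with
  | empty => exact fun _ h _ => ⟨_, subset_rfl, h, fun _ _ => ∅, by simp⟩
  | @insert O s _ _ ih =>
    intro Y h0 hY h
    obtain ⟨Z, z1, z2, A, hA⟩ := ih h0 hY fun P hP => h P (Or.inr hP)
    obtain ⟨Z', z3, z4, B, hB⟩ := split1 soca net per (z1.trans h0) z2 (h O (Or.inl rfl)).1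
      fun y hy => (h O (Or.inl rfl)).2 y (z1 hy)
    refine ⟨Z', z3.trans z1, z4, Function.update A O B, fun P hP => ?_⟩
    by_cases e : P = O
    · subst e; rwa [Function.update_self]
    · rw [Function.update_of_ne e]
      have := hA P (hP.resolve_left e)
      exact ⟨fun b => ⟨(this.1 b).1, (this.1 b).2.1, fun y hy => (this.1 b).2.2 y (z3 hy)⟩, this.2⟩

omit soca net per in
/-- stage `n` of the fusion -/
structure St (C : M → Set X) (Y0 : Set M) (n : ℕ) (s : Set M × ((ℕ → Bool) → Set X)) : Prop where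
  sub : s.1 ⊆ Y0
  unc : ¬ s.1.Countable
  fin : (range s.2).Finite
  op : ∀ t, IsOpen (s.2 t)
  meet : ∀ t, ∀ y ∈ s.1, (C y ∩ s.2 t).Nonempty
  dich : ∀ t t', s.2 t = s.2 t' ∨ Disjoint (closure (s.2 t)) (closure (s.2 t'))
  sep : ∀ t t', ∀ i < n, t i ≠ t' i → Disjoint (closure (s.2 t)) (closure (s.2 t'))

lemma step (n : ℕ) (s : Set M × ((ℕ → Bool) → Set X)) :
    ∃ s' : Bool → Set M × ((ℕ → Bool) → Set X), St C Y0 n s →
      (∀ b, St C Y0 (n + 1) (s' b) ∧ (s' b).1 ⊆ s.1 ∧ ∀ t, (s' b).2 t ⊆ s.2 t) ∧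
        Disjoint (closure (s' false).1) (closure (s' true).1) := by
  by_cases h : St C Y0 n s
  swap
  · exact ⟨fun _ => s, fun c => absurd c h⟩
  obtain ⟨Z, z1, z2, A, hA⟩ := split2 soca net per h.fin h.sub h.unc (by
    rintro _ ⟨t, rfl⟩; exact ⟨h.op t, h.meet t⟩)
  replace hA := fun t => hA _ (mem_range_self t)
  obtain ⟨Z', z3, z4⟩ := two_parts z2
  have le := fun t => closure_mono ((hA t).1 (t n)).2.1
  have key : ∀ t t', t n ≠ t' n →
      Disjoint (closure (A (s.2 t) (t n))) (closure (A (s.2 t') (t' n))) := fun t t' c => by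
    rcases h.dich t t' with e | e
    · rw [← e]
      cases e1 : t n <;> cases e2 : t' n <;> simp_all [disjoint_comm]
    · exact e.mono (le t) (le t')
  refine ⟨fun b => (Z' b, fun t => A (s.2 t) (t n)), fun _ => ⟨fun b => ⟨⟨((z3 b).1.trans z1).trans
    h.sub, (z3 b).2, ((h.fin.prod finite_univ).image fun p => A p.1 p.2).subset ?_,
    fun t => ((hA t).1 _).1, fun t y hy => ((hA t).1 _).2.2 y ((z3 b).1 hy), fun t t' => ?_,
    fun t t' i hi c => ?_⟩, (z3 b).1.trans z1, fun t => ((hA t).1 _).2.1⟩, z4⟩⟩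
  · rintro _ ⟨t, rfl⟩
    exact ⟨(s.2 t, t n), ⟨mem_range_self t, mem_univ _⟩, rfl⟩
  · by_cases c : t n = t' n
    · exact (h.dich t t').imp (fun e => by simp only [e, c]) fun e => e.mono (le t) (le t')
    · exact Or.inr (key t t' c)
  · rcases Nat.lt_succ_iff_lt_or_eq.1 hi with hi | rfl
    · exact (h.sep t t' i hi c).mono (le t) (le t')
    · exact key t t' c

theorem fusion {f : X → M} (hf : Continuous f) (hC : ∀ y ∈ Y0, C y ⊆ f ⁻¹' {y})
    (hne : ∀ y ∈ Y0, (C y).Nonempty) (ht : CTight f) : Y0.Countable := by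
  by_contra hY
  choose F hF using step soca net per
  let G : (ℕ → Bool) → ℕ → Set M × ((ℕ → Bool) → Set X) := fun σ n =>
    Nat.rec (Y0, fun _ => univ) (fun n s => F n s (σ n)) n
  have G1 : ∀ σ n, G σ (n + 1) = F n (G σ n) (σ n) := fun _ _ => rfl
  have st : ∀ σ n, St C Y0 n (G σ n) := fun σ n => by
    induction n with
    | zero => exact ⟨subset_rfl, hY, (finite_singleton univ).subset (by rintro _ ⟨t, rfl⟩; rfl),
        fun _ => isOpen_univ, fun _ y hy => (hne y hy).mono (subset_inter subset_rfl (subset_univ _)),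
        fun _ _ => Or.inl rfl, fun _ _ _ h => absurd h (Nat.not_lt_zero _)⟩
    | succ n ih => exact ((hF n _ ih).1 _).1
  have m1 : ∀ σ n, closure (G σ (n + 1)).1 ⊆ closure (G σ n).1 := fun σ n =>
    closure_mono ((hF n _ (st σ n)).1 _).2.1
  have m2 : ∀ σ n t, closure ((G σ (n + 1)).2 t) ⊆ closure ((G σ n).2 t) := fun σ n t =>
    closure_mono (((hF n _ (st σ n)).1 _).2.2 t)
  have d1 : ∀ σ τ n, G σ n = G τ n ∨ Disjoint (closure (G σ n).1) (closure (G τ n).1) →
      σ n ≠ τ n → Disjoint (closure (G σ (n + 1)).1) (closure (G τ (n + 1)).1) := by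
    rintro σ τ n (e | e) c
    · have := (hF n _ (st σ n)).2
      rw [G1, G1, ← e]
      cases e1 : σ n <;> cases e2 : τ n <;> simp_all [disjoint_comm]
    · exact e.mono (m1 σ n) (m1 τ n)
  have d2 : ∀ σ τ n, G σ n = G τ n ∨ Disjoint (closure (G σ n).1) (closure (G τ n).1) :=
    fun σ τ n => by
      induction n with
      | zero => exact Or.inl rfl
      | succ n ih =>
        by_cases c : σ n = τ n
        · exact ih.imp (fun e => by rw [G1, G1, e, c]) fun e => e.mono (m1 σ n) (m1 τ n)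
        · exact Or.inr (d1 σ τ n ih c)
  have fin : ∀ n, (range fun σ => G σ n).Finite := fun n => by
    induction n with
    | zero => exact (finite_singleton _).subset (by rintro _ ⟨t, rfl⟩; rfl)
    | succ n ih =>
      refine ((ih.prod finite_univ).image fun p => F n p.1 p.2).subset ?_
      rintro _ ⟨σ, rfl⟩
      exact ⟨(G σ n, σ n), ⟨mem_range_self σ, mem_univ _⟩, rfl⟩
  choose q hq using fun σ => IsCompact.nonempty_iInter_of_sequence_nonempty_isCompact_isClosed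
    (fun n => closure (G σ n).1) (m1 σ)
    (fun n => (nonempty_iff_ne_empty.2 fun e : (G σ n).1 = ∅ =>
      (st σ n).unc (e ▸ countable_empty)).closure)
    isClosed_closure.isCompact fun _ => isClosed_closure
  have qi : Function.Injective q := fun σ τ e => funext fun n => by_contra fun c =>
    disjoint_left.1 (d1 σ τ n (d2 σ τ n) c) (mem_iInter.1 (hq σ) (n + 1))
      (by rw [e]; exact mem_iInter.1 (hq τ) (n + 1))
  have cnt := ht (fun t => ⋂ n, ⋃ s ∈ range fun σ => G σ n, closure (s.2 t) ∩ f ⁻¹' closure s.1)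
    (fun t => isClosed_iInter fun n => (fin n).isClosed_biUnion fun s _ =>
      isClosed_closure.inter (isClosed_closure.preimage hf)) fun t t' c => by
      obtain ⟨n, hn⟩ := Function.ne_iff.1 c
      refine disjoint_left.2 fun p p1 p2 => ?_
      obtain ⟨_, ⟨σ, rfl⟩, a1, a2⟩ := mem_iUnion₂.1 (mem_iInter.1 p1 (n + 1))
      obtain ⟨_, ⟨τ, rfl⟩, b1, b2⟩ := mem_iUnion₂.1 (mem_iInter.1 p2 (n + 1))
      rcases d2 σ τ (n + 1) with e | e
      · exact disjoint_left.1 ((st σ (n + 1)).sep t t' n (Nat.lt_succ_self n) hn) a1 (e ▸ b1)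
      · exact disjoint_left.1 e a2 b2
  have : Uncountable (ℕ → Bool) := Cardinal.aleph0_lt_mk_iff.1 (by simp [Cardinal.aleph0_lt_continuum])
  refine not_countable (α := ℕ → Bool) (countable_univ_iff.1
    (countable_of_injective_of_countable_image qi.injOn (cnt.mono ?_)))
  rintro _ ⟨σ, -, rfl⟩
  refine mem_iInter.2 fun t => ?_
  obtain ⟨p, hp⟩ := IsCompact.nonempty_iInter_of_sequence_nonempty_isCompact_isClosed
    (fun n => closure ((G σ n).2 t) ∩ f ⁻¹' {q σ}) (fun n => inter_subset_inter_left _ (m2 σ n t))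
    (fun n => closure_minimal (fun y hy => by
      obtain ⟨p, p1, p2⟩ := (st σ n).meet t y hy
      exact ⟨p, subset_closure p2, hC y ((st σ n).sub hy) p1⟩)
      (hf.isClosedMap _ isClosed_closure) (mem_iInter.1 (hq σ) n))
    (isClosed_closure.inter (isClosed_singleton.preimage hf)).isCompact
    fun _ => isClosed_closure.inter (isClosed_singleton.preimage hf)
  have e : f p = q σ := (mem_iInter.1 hp 0).2
  exact ⟨p, mem_iInter.2 fun n => mem_iUnion₂.2 ⟨_, mem_range_self σ, (mem_iInter.1 hp n).1,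
    by rw [mem_preimage, e]; exact mem_iInter.1 (hq σ) n⟩, e⟩

end Pool.Agent.Lib.MP_563af5_gt
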